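import Pool.Agent.Helper70.KN.Goals2

/-!
# Project KN (MP_20ee5e_ag), third part: the strongest form

THEOREM (helper70). `N ≥ 4`, `Flat V ω θ`, `ω ≤ 2`, `θ ≤ 2`, `κ(z,h) = (1 - (1 - z h)^N)/z`, `0 < h ≤ 1/2`, `0 ≤ r ≤ 1`,
`r (N-1)(N-2) h² ≤ 1 - θ/3`: `N! genus V + (((N-1)/N)(r κ(ω,h) + (1-r) κ(θ,1/2)) - 1) T V 1 ≤ newtonNumber V`. In particular
`N! genus V < newtonNumber V` if `θ ≤ 1 - 2/N` (any `N ≥ 4`), and if all nonzero coordinates of all `v ∈ V` are at least `N`.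
Rules as in Goals.lean: prove `theorem t : S_XX` (USES are arguments).
-/

open MeasureTheory Set

namespace Pool.Agent.Helper70.KN

/-- `κ(z, h)`. -/
noncomputable def kap (N : ℕ) (z h : ℝ) : ℝ := (1 - (1 - z * h) ^ N) / z

/-- TC. PROOF. `y` the new point, `y ≥ 0`. For `w ∈ L`: `⟨w, y⟩ = (⟨w, x⟩ - t ∑_{k ≠ i} w_k)/(1 - θ t) ≥ (1 - t θ)/(1 - θ t) = 1`. -/
def S_TC : Prop := ∀ (N : ℕ) (V : Finset (Fin N → ℕ)) (ω θ : ℝ), Flat V ω θ →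
  ∀ (i : Fin N) (x : Fin N → ℝ) (t : ℝ), x ∈ newton V → 0 ≤ t → t * θ < 1 → (∀ k, k ≠ i → t ≤ x k) →
    (fun k => if k = i then x k / (1 - θ * t) else (x k - t) / (1 - θ * t)) ∈ newton V

/-- SHE. Slices in the direction `∑_{k ≠ i} e_k`. USES: MF, SI, SC, TC, SH.
PROOF. `R` the set on the right (measurable, finite volume), `P` its preimage under the shear `Φ` of SH with `J = {i}` (the coordinates `i` and `j` are unchanged, `x_j` is added to the others): `volume P = volume R`, `P = {x | Φ x ∈ cyl V ∅ ∧ x j < s ∧ ∀ k, k ≠ i → k ≠ j → 0 < x k}`. For `0 < t < s`, `λ = 1 - θ t > 0`, `P_t = {x | 0 ≤ x j ∧ x j < 1 ∧ update x j t ∈ P}`, `D_j = 1`, `D_k = λ` for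
`k ≠ j` (product `λ^(N-1)`). Claim: `cyl V {j} ∩ {x | ∀ k, k ≠ i → k ≠ j → 0 < x k} ⊆ {x | D x ∈ P_t}`: `y = update (D x) j t`, `Φ y` is `t` at `j`, `λ x_i` at `i`, `λ x_k + t` at the others, all `≥ 0`; it is not in `newton V`, otherwise TC (with `i`, `t`) gives the point `x_i` at `i`, `0` at `j`, `x_k` at the others, that is `zr {j} x`, in `newton V`. The set on the left has the
volume of `cyl V {j}` (hyperplanes are null). So (SC) `volume P_t ≥ λ^(N-1) volume (cyl V {j})`; integrate over `t ∈ (0, s)` (SI): `∫_0^s (1 - θ t)^(N-1) dt = (1 - (1 - θ s)^N)/(N θ)`. (Models: Helper67/KN/SL.lean, and packet SHS.) -/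
def S_SHE : Prop := ∀ (N : ℕ) (V : Finset (Fin N → ℕ)) (ω θ : ℝ), Flat V ω θ →
  ∀ (i j : Fin N) (s : ℝ), j ≠ i → 0 ≤ s → θ * s ≤ 1 →
    kap N θ s / N * W V {j} ≤
      (volume {x | x ∈ cyl V ∅ ∧ x j < s ∧ ∀ k, k ≠ i → k ≠ j → x j < x k}).toReal

/-- SE. USES: MF, SHE.
PROOF. For `j ≠ i` let `R_j` be the set in SHE with `s = 1/2`. The sets `R_j` (`j ≠ i`) and `{x ∈ cyl V ∅ | ∀ j ≠ i, 1/2 ≤ x j}` are pairwise disjoint measurable subsets of `cyl V ∅` (of finite volume; `cyl V ∅ = {x | 0 ≤ x ∧ x ∉ newton V}`). Add. -/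
def S_SE : Prop := ∀ (N : ℕ) (V : Finset (Fin N → ℕ)) (ω θ : ℝ), Flat V ω θ → θ ≤ 2 → ∀ i : Fin N,
  (volume {x : Fin N → ℝ | 0 ≤ x ∧ x ∉ newton V ∧ ∀ j, j ≠ i → 1 / 2 ≤ x j}).toReal ≤
    W V ∅ - kap N θ (1 / 2) / N * ∑ j ∈ Finset.univ.erase i, W V {j}

/-- Y1X. USES: WD, SLW. PROOF. `c = 1/ω`, `s = h` in SLW: the integral is `(1 - (1 - ω h)^N)/(N ω)` (`N ≥ 1` as there is an `i`), and `cyl V ∅ ∩ {x | x i < h} = part V h {i}`. -/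
def S_Y1X : Prop := ∀ (N : ℕ) (V : Finset (Fin N → ℕ)) (ω θ : ℝ), Flat V ω θ →
  ∀ (i : Fin N) (h : ℝ), 0 ≤ h → ω * h ≤ 1 → kap N ω h / N * W V {i} ≤ Y V h {i}

/-- NA. Numbers. PROOF. `(1 - θ/2)^N` is convex in `θ`, so with `θ₀ = (N-2)/N`, `s = θ/θ₀ ∈ (0,1]`: `(1 - θ/2)^N ≤ 1 - s + s (1 - θ₀/2)^N`, so `1 - (1 - θ/2)^N - N θ/(N-1) ≥ s (1 - ((N+2)/(2N))^N - (N-2)/(N-1)) = s (1/(N-1) - ((N+2)/(2N))^N) > 0`: `(N+2)/(2N) ≤ 3/4` and `(3/4)^N < 1/(N-1)` for `N ≥ 4` (induction). -/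
def S_NA : Prop := ∀ (N : ℕ) (θ : ℝ), 4 ≤ N → 0 < θ → θ ≤ 1 - 2 / (N : ℝ) →
  1 < ((N : ℝ) - 1) / N * kap N θ (1 / 2)

/-- NB. Numbers. PROOF. `ω = 1/N`, `θ = (N-1)/N`: `κ(ω,1/2) = N (1 - q)`, `q = (1 - 1/(2N))^N`, `κ(θ,1/2) = (N/(N-1)) (1 - p)`, `p = ((N+1)/(2N))^N`, `r = 4 (2N+1)/(3N(N-1)(N-2))`: `0 ≤ r ≤ 1`, `r (N-1)(N-2)/4 = 1 - θ/3` and the claim is `r ((N-1)(1-q) - (1-p)) > p`. `N = 4`: `r = 1/2`, `N = 5`: `r = 11/45`, by computation. `N ≥ 6`: `q ≤ 1/(1 + 1/2) = 2/3`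
(Bernoulli), so the left side is `≥ r (N-4)/3 ≥ (8/9)(N-4)/((N-1)(N-2)) ≥ (4/9)/(N-1)`, and `p ≤ (7/12)^N < (4/9)/(N-1)` (induction). -/
def S_NB : Prop := ∀ (N : ℕ), 4 ≤ N → ∃ r : ℝ, 0 ≤ r ∧ r ≤ 1 ∧
  r * ((N : ℝ) - 1) * ((N : ℝ) - 2) * (1 / 2) ^ 2 ≤ 1 - ((N : ℝ) - 1) / N / 3 ∧
  1 < ((N : ℝ) - 1) / N * (r * kap N (1 / N) (1 / 2) + (1 - r) * kap N (((N : ℝ) - 1) / N) (1 / 2))

/-- FI3 (helper70). -/
def S_FI3 : Prop := ∀ (N : ℕ) (V : Finset (Fin N → ℕ)) (ω θ h r : ℝ), 4 ≤ N → Flat V ω θ → ω ≤ 2 → θ ≤ 2 →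
  0 < h → h ≤ 1 / 2 → 0 ≤ r → r ≤ 1 → r * ((N : ℝ) - 1) * ((N : ℝ) - 2) * h ^ 2 ≤ 1 - θ / 3 →
  (N.factorial : ℝ) * genus V +
    (((N : ℝ) - 1) / N * (r * kap N ω h + (1 - r) * kap N θ (1 / 2)) - 1) * T V 1 ≤ newtonNumber V

end Pool.Agent.Helper70.KN
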