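import Pool.Agent.Helper70.KN.Defs

/-!
# Project KN (MP_20ee5e_ag), goals

THEOREM (helper70): `N ≥ 4`, `Thick V c`, `3 (N - 1) ≤ 2 c`: `N! genus V < newtonNumber V` (Saito's form of Durfee's inequality
`(n+1)! p_g < μ`, explicit threshold). Every packet is a `Prop` with its proof in the docstring. Prove
`theorem t : S_XX` (goals listed as USES are arguments `(h : S_YY)`). If a statement is false as it stands, mail helper70 at once.
-/

open MeasureTheory Set

namespace Pool.Agent.Helper70.KN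

/-- CL. PROOF. Convex hull of a finite set is compact, `newton V = convexHull + {y | 0 ≤ y}` is closed; convex: sum of convex sets (or by hand). -/
def S_CL : Prop := ∀ (N : ℕ) (V : Finset (Fin N → ℕ)),
  IsClosed (newton V) ∧ Convex ℝ (newton V) ∧ IsUpperSet (newton V)

/-- BD. PROOF. `M = 1 + ∑ m_i`, `m_i e_i ∈ V`: if `x ≥ 0` and `x_i ≥ m_i` then `m_i e_i ≤ x`, so `x ∈ newton V`. -/
def S_BD : Prop := ∀ (N : ℕ) (V : Finset (Fin N → ℕ)), Convenient V →
  ∃ M : ℝ, 0 < M ∧ ∀ x : Fin N → ℝ, 0 ≤ x → x ∉ newton V → ∀ i, x i < M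

/-- MF. Measurable and finite. USES: CL, BD.
PROOF. `newton V` is closed, `zr J` is continuous; both sets are inside the box `[0, max M 1]^N` (for `x ∈ cyl V J`, `i ∉ J`: `zr J x ≥ 0` is not in `newton V`, so `x_i < M`). -/
def S_MF : Prop := ∀ (N : ℕ) (V : Finset (Fin N → ℕ)), Convenient V → ∀ J : Finset (Fin N),
  MeasurableSet (cyl V J) ∧ volume (cyl V J) ≠ ⊤ ∧
    ∀ h : ℝ, MeasurableSet (part V h J) ∧ volume (part V h J) ≠ ⊤

/-- TH. Thickness.
PROOF. `x ≥ z = ∑ a_v v`, `a_v ≥ 0`, `∑ a_v = 1` (`v ∈ V`). `∑_{v_i ≠ 0} a_v ≤ z_i / c ≤ x_i / c`, so `B := ∑_{v_i = 0} a_v ≥ λ := 1 - x_i / c > 0`. `z' := B⁻¹ ∑_{v_i = 0} a_v v` is in the convex hull, `z'_i = 0` and for `k ≠ i`: `z'_k ≤ B⁻¹ z_k ≤ λ⁻¹ z_k ≤ λ⁻¹ x_k`. -/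
def S_TH : Prop := ∀ (N : ℕ) (V : Finset (Fin N → ℕ)) (c : ℝ), Thick V c →
  ∀ (x : Fin N → ℝ) (i : Fin N), x ∈ newton V → 0 ≤ x i → x i < c →
    (fun k => if k = i then (0 : ℝ) else x k / (1 - x i / c)) ∈ newton V

/-- SI. Slices, cylinder form (`0 ≤ x i < 1` is a unit interval in the direction `i`).
PROOF. `N = n + 1` (`N = 0` has no `i`), `volume_preserving_piFinSuccAbove` (or `lmarginal`): the volume of `S` is the integral over `t` of the `n`-volume of `{y | i.insertNth t y ∈ S}`, and the set on the right is in these coordinates the product of `[0,1)` and that set. -/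
def S_SI : Prop := ∀ (N : ℕ) (S : Set (Fin N → ℝ)) (i : Fin N), MeasurableSet S →
  volume S = ∫⁻ t : ℝ, volume {x : Fin N → ℝ | 0 ≤ x i ∧ x i < 1 ∧ Function.update x i t ∈ S}

/-- FB. The other order.
PROOF. As SI: both sides are the integral over `y ∈ ℝ^n` of the length of `{t | i.insertNth t y ∈ S}`. -/
def S_FB : Prop := ∀ (N : ℕ) (S : Set (Fin N → ℝ)) (i : Fin N), MeasurableSet S →
  volume S = ∫⁻ x in {x : Fin N → ℝ | 0 ≤ x i ∧ x i < 1}, volume {t : ℝ | Function.update x i t ∈ S}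

/-- SC. Diagonal scaling. PROOF. `Real.smul_map_diagonal_volume_pi` (or `Measure.addHaar_preimage_linearMap`). -/
def S_SC : Prop := ∀ (N : ℕ) (S : Set (Fin N → ℝ)) (D : Fin N → ℝ), MeasurableSet S → (∀ i, 0 < D i) →
  volume S = ENNReal.ofReal (∏ i, D i) * volume {x : Fin N → ℝ | (fun i => D i * x i) ∈ S}

/-- SL. Slice inequality. USES: MF, TH, SI, SC.
PROOF. Let `S = cyl V J ∩ {x | x i < s}` and, for `0 < t < s`, `λ = 1 - t/c ∈ (0,1)`, `R_t = {x | 0 ≤ x i ∧ x i < 1 ∧ update x i t ∈ S}` (measurable), `D_k = 1` for `k ∈ insert i J`, `D_k = λ` otherwise (product `λ^(N - |J| - 1)`). Claim `cyl V (insert i J) ⊆ {x | D x ∈ R_t}`: for `x` in the left side, `y = D x`: `0 ≤ y_i = x_i < 1`, `w' = update y i t ≥ 0`, `w'_j = x_j < 1` for `j ∈ J`,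
`w'_i = t < s`, and `w = zr J w'` is not in `newton V`: otherwise (TH for `w`, `w_i = t` as `i ∉ J`) the point with coordinates `0` at `i`, `w_k / λ` at `k ≠ i`, is in `newton V`; it is `zr (insert i J) x`. So by SC `volume R_t ≥ λ^(N-|J|-1) volume (cyl V (insert i J))`; integrate over `t ∈ (0, s)` (SI). -/
def S_SL : Prop := ∀ (N : ℕ) (V : Finset (Fin N → ℕ)) (c : ℝ), Thick V c →
  ∀ (J : Finset (Fin N)) (i : Fin N), i ∉ J → ∀ s : ℝ, 0 ≤ s → s ≤ c →
    (∫ t in (0 : ℝ)..s, (1 - t / c) ^ (N - J.card - 1)) * W V (insert i J) ≤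
      (volume (cyl V J ∩ {x | x i < s})).toReal

/-- CC. USES: MF, SL. PROOF. `s = c` in SL, the integral is `c / (N - |J|)` (`|J| < N`), and `cyl V J ∩ _ ⊆ cyl V J`. -/
def S_CC : Prop := ∀ (N : ℕ) (V : Finset (Fin N → ℕ)) (c : ℝ), Thick V c →
  ∀ (J : Finset (Fin N)) (i : Fin N), i ∉ J → c * W V (insert i J) ≤ ((N : ℝ) - J.card) * W V J

/-- Y1. USES: SL. PROOF. `J = ∅` in SL: `cyl V ∅ ∩ {x i < h} = part V h {i}` (`zr ∅ x = x`), and `(1 - t/c)^(N-1) ≥ 1 - (N-1) t/c` (Bernoulli, `0 ≤ t ≤ c`) gives integral `≥ h - (N-1) h²/(2c)`. -/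
def S_Y1 : Prop := ∀ (N : ℕ) (V : Finset (Fin N → ℕ)) (c : ℝ), Thick V c →
  ∀ (i : Fin N) (h : ℝ), 0 ≤ h → h ≤ c → (h - ((N : ℝ) - 1) * h ^ 2 / (2 * c)) * W V {i} ≤ Y V h {i}

/-- Y2. USES: CL, MF, SC. PROOF. `D_k = h` for `k ∈ J`, `1` otherwise: `{x | D x ∈ part V h J} ⊆ cyl V J` (`zr J x = zr J (D x) ≤ D x`, and `newton V` is an upper set); SC. -/
def S_Y2 : Prop := ∀ (N : ℕ) (V : Finset (Fin N → ℕ)), Convenient V →
  ∀ (J : Finset (Fin N)) (h : ℝ), 0 < h → Y V h J ≤ h ^ J.card * W V J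

/-- VJ. The cylinders have the right volume.
PROOF. `MeasurableEquiv.piEquivPiSubtypeProd` with the predicate `· ∈ Jᶜ` is volume preserving (`volume_preserving_piEquivPiSubtypeProd`); `cyl V J` is the preimage of the product of `{y | extz Jᶜ y ∈ under V}` and the unit cube `[0,1)^J`; `Measure.prod_prod`, `MeasurePreserving.measure_preimage_equiv` (no measurability needed). `extz Jᶜ` of the restriction of `x` is `zr J x`. -/
def S_VJ : Prop := ∀ (N : ℕ) (V : Finset (Fin N → ℕ)) (J : Finset (Fin N)), W V J = vol V Jᶜ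

/-- LP. Pairing. USES: CL.
PROOF. If `len x + len x' < 2n` take reals `a > len x`, `b > len x'` (both finite), `a + b < 2n`. The set `{t | 0 ≤ t ∧ update x i t ∉ newton V}` does not contain `[0, a]` (its length is less than `a`), so some `update x i t`, `0 ≤ t ≤ a`, is in `newton V`, hence `update x i a` (upper set), similarly `update x' i b`; the midpoint has coordinates `y_j` (`j ≠ i`) and `(a + b)/2 ∈ [0, n)`: contradiction by convexity. -/
def S_LP : Prop := ∀ (N : ℕ) (V : Finset (Fin N → ℕ)) (i : Fin N) (x x' y : Fin N → ℝ) (n : ℕ),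
  (∀ j, j ≠ i → x j + x' j = 2 * y j) →
  (∀ s : ℝ, 0 ≤ s → s < n → Function.update y i s ∉ newton V) →
    2 * (n : ENNReal) ≤ len V i x + len V i x'

/-- CO. Jensen on a column. USES: CL, BD, FB, LP.
PROOF. `S = {x | 0 ≤ x ∧ x ∉ newton V} ∩ col i p` is measurable with finite volume (BD). By FB `volume S` is the integral of `len V i x` over `Q = {x | 0 ≤ x i < 1} ∩ col i p` (for `x ∈ Q` all `x_j ≥ 1/2 > 0`, `j ≠ i`, and `{t | update x i t ∈ S}` is the set in `len`; for `x ∉ col i p` it is empty). The map `x ↦ x'`, `x'_i = x_i`, `x'_j = 2 p_j - x_j`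
preserves the volume and `Q` (composition of a translation and of a map with coordinates `± x_j`; e.g. `volume_preserving_pi` with `MeasurePreserving` of `r ↦ 2 p_j - r`). So `2 volume S = ∫_Q (len x + len x') ≥ 2 n volume Q = 2 n` by LP (`Q` is a box of sides `1`: `Real.volume_pi` or `volume_pi_pi`). -/
def S_CO : Prop := ∀ (N : ℕ) (V : Finset (Fin N → ℕ)), Convenient V → ∀ (i : Fin N) (p : Fin N → ℕ) (n : ℕ),
  (∀ j, j ≠ i → 0 < p j) →
  (∀ s : ℝ, 0 ≤ s → s < n → Function.update (fun j => (p j : ℝ)) i s ∉ newton V) →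
    (n : ℝ) ≤ (volume ({x | 0 ≤ x ∧ x ∉ newton V} ∩ col i p)).toReal

/-- JI. Interior points. USES: CL.
PROOF. Let `q = update p i s ∈ newton V`, `s < p_i`, and `m e_i ∈ V`. For small `ε > 0` the point `z = (1-ε) q + ε m e_i ∈ newton V` (convex) has `z_j = (1-ε) p_j < p_j` for `j ≠ i` and `z_i = (1-ε) s + ε m < p_i`; the open set `{x | ∀ j, z_j < x_j}` contains `p` and is inside `newton V`. -/
def S_JI : Prop := ∀ (N : ℕ) (V : Finset (Fin N → ℕ)), Convenient V → ∀ (i : Fin N) (p : Fin N → ℕ),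
  (∀ j, 0 < p j) → (fun j => (p j : ℝ)) ∉ interior (newton V) →
    ∀ s : ℝ, s < p i → Function.update (fun j => (p j : ℝ)) i s ∉ newton V

/-- JE. USES: BD, CL, JI, CO.
PROOF. `P` the set in `genus`; if it is infinite its `ncard` is `0`. Otherwise group the points of `P` by `b = update p i 0`: `|P| = ∑_b n_b` (`Finset.card_eq_sum_card_fiberwise` with the image). In the fibre of `b` the `n_b` points have different `i`-th coordinates `≥ 1`, so one of them, `p`, has `p_i ≥ n_b`; by JI the hypothesis of CO holds for `b` (or `p`) and `n_b`. The columns `col i b` for different `b` are disjoint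
(some `j ≠ i` with different integers `b_j`), and `{x | 0 ≤ x ∧ x ∉ newton V} ∩ col i b` is inside the set on the right, as `b_j ≥ 1` for `j ≠ i`, which is measurable of finite volume (BD). Add. -/
def S_JE : Prop := ∀ (N : ℕ) (V : Finset (Fin N → ℕ)), Convenient V → ∀ i : Fin N,
  (genus V : ℝ) ≤ (volume {x : Fin N → ℝ | 0 ≤ x ∧ x ∉ newton V ∧ ∀ j, j ≠ i → 1 / 2 ≤ x j}).toReal

/-- PW. Pointwise inequality. PROOF. Let `k = |{j | b j}|`. Left: `N` if `k = 0`, `1` if `k = 1`, `0` if `k ≥ 2`. Sums on the right: `k` and `k (k-1)/2` (`powersetCard 2` of the filter, `Finset.card_powersetCard`). `N ≤ N`, `1 ≤ N - (N-1)`, `0 ≤ N - 2(N-1) + (N-2)` at `k = 2`, and for `k ≥ 2` the right side increases in `k`. -/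
def S_PW : Prop := ∀ (N : ℕ), 3 ≤ N → ∀ (b : Fin N → Prop) [DecidablePred b],
  ∑ i, (if ∀ j, j ≠ i → ¬ b j then (1 : ℝ) else 0) ≤ (N : ℝ) - ((N : ℝ) - 1) * ∑ i, (if b i then (1 : ℝ) else 0) +
    ((N : ℝ) - 2) * ∑ J ∈ (Finset.univ : Finset (Fin N)).powersetCard 2, (if ∀ j ∈ J, b j then (1 : ℝ) else 0)

/-- AV. Averaging. USES: MF, JE, PW.
PROOF. Sum JE over `i`; `{... ∀ j ≠ i, 1/2 ≤ x j} ⊆ {x ∈ under V | ∀ j ≠ i, ¬ x j < h}`. Integrate PW with `b j := x j < h` over `under V = cyl V ∅` (measurable, finite volume); the integral of an indicator over `under V` is the volume of the intersection, `Y V h {i}`, `Y V h J`. -/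
def S_AV : Prop := ∀ (N : ℕ), 3 ≤ N → ∀ (V : Finset (Fin N → ℕ)), Convenient V → ∀ h : ℝ, 0 ≤ h → h ≤ 1 / 2 →
  (N : ℝ) * genus V ≤ (N : ℝ) * W V ∅ - ((N : ℝ) - 1) * ∑ i, Y V h {i} +
    ((N : ℝ) - 2) * ∑ J ∈ (Finset.univ : Finset (Fin N)).powersetCard 2, Y V h J

/-- AL. Alternating sums. PROOF. The rest `T 4 - T 5 + ...` of the sum is `≥ 0`, being an alternating sum of a decreasing nonnegative sequence (induction, pairs). -/
def S_AL : Prop := ∀ (n : ℕ) (T : ℕ → ℝ), (∀ k, 0 ≤ T k) → (∀ k, 1 ≤ k → T (k + 1) ≤ T k) → 3 ≤ n →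
  T 0 - T 1 + T 2 - T 3 ≤ ∑ k ∈ Finset.range (n + 1), (-1) ^ k * T k

/-- KO. USES: VJ. PROOF. Reindex the sum in `newtonNumber` by `J = Iᶜ` (`|I| = N - |J|`), and group by `|J| = k`. -/
def S_KO : Prop := ∀ (N : ℕ) (V : Finset (Fin N → ℕ)),
  newtonNumber V = ∑ k ∈ Finset.range (N + 1), (-1) ^ k * T V k

/-- XX. USES: CC.
PROOF. Double count pairs `i ∈ J'`, `|J'| = k + 1`, `J = J' \ {i}`: `(k+1) X_(k+1) = ∑_{|J|=k} ∑_{i ∉ J} W V (insert i J)`, and `c W V (insert i J) ≤ (N - k) W V J`, `N - k` values of `i`: `(k+1) c X_(k+1) ≤ (N-k)² X_k`; multiply by `(N-k-1)!`. (For `k ≥ N` both `X_(k+1) = 0` and `N - k ≤ 0`: state only `k < N`.) -/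
def S_XX : Prop := ∀ (N : ℕ) (V : Finset (Fin N → ℕ)) (c : ℝ), Thick V c → ∀ k : ℕ, k < N →
  ((k : ℝ) + 1) * c * T V (k + 1) ≤ ((N : ℝ) - k) * T V k

/-- PO. Positivity. USES: MF.
PROOF. Every point `z` of `newton V` has `c ≤ ∑ z_j` (each `v ∈ V` has a nonzero coordinate, which is `≥ c`; half space). So `cyl V J` contains the open box `(0, ε)^N`, `ε = min 1 (c/(N+1))`, of positive volume. -/
def S_PO : Prop := ∀ (N : ℕ) (V : Finset (Fin N → ℕ)) (c : ℝ), Thick V c → ∀ J : Finset (Fin N), 0 < W V J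

/-- FI (helper70). -/
def S_FI : Prop := ∀ (N : ℕ) (V : Finset (Fin N → ℕ)) (c : ℝ), 4 ≤ N → Thick V c → 3 * ((N : ℝ) - 1) ≤ 2 * c →
  (N.factorial : ℝ) * genus V < newtonNumber V

end Pool.Agent.Helper70.KN
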