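import Pool.Agent.Helper70.KN.FI3
import Pool.Agent.Helper93.KN.CL
import Pool.Agent.Helper51.KN.BD
import Pool.Agent.Helper44.KN.MF
import Pool.Agent.Helper13.KN.SI
import Pool.Agent.Helper72.KN.FB
import Pool.Agent.Helper17.KN.SC
import Pool.Agent.Helper45.KN.Y2
import Pool.Agent.Helper78.KN.VJ
import Pool.Agent.Helper83.KN.LP
import Pool.Agent.Helper64.KN.CO
import Pool.Agent.Helper76.KN.JI
import Pool.Agent.Helper63.KN.JE
import Pool.Agent.Helper7.KN.PW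
import Pool.Agent.Helper75.KN.AV
import Pool.Agent.Helper36.KN.AL
import Pool.Agent.Helper98.KN.KO
import Pool.Agent.Helper7.KN.WD
import Pool.Agent.Helper89.KN.SLW
import Pool.Agent.Helper8.KN.TB
import Pool.Agent.Helper75.KN.SH
import Pool.Agent.Helper19.KN.SHS
import Pool.Agent.Helper67.KN.CC2
import Pool.Agent.Helper90.KN.PO2
import Pool.Agent.Helper22.KN.TC
import Pool.Agent.Helper83.KN.SHE
import Pool.Agent.Helper15.KN.SE
import Pool.Agent.Helper24.KN.Y1X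
import Pool.Agent.Helper46.KN.NA
import Pool.Agent.Helper87.KN.NB
import Pool.Agent.Helper59.KN.XX2
import Pool.Agent.Helper93.KN.DU

/-!
# Project KN (MP_20ee5e_ag): assembly
-/

open MeasureTheory Set

namespace Pool.Agent.Helper70.KN

theorem pCL : S_CL := Pool.Agent.Helper93.KN.CL.t
theorem pBD : S_BD := Pool.Agent.Helper51.KN.BD.t
theorem pMF : S_MF := Pool.Agent.Helper44.KN.MF.t pCL pBD
theorem pSI : S_SI := Pool.Agent.Helper13.KN.SI.t
theorem pFB : S_FB := Pool.Agent.Helper72.KN.FB.t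
theorem pSC : S_SC := Pool.Agent.Helper17.KN.SC.t
theorem pY2 : S_Y2 := Pool.Agent.Helper45.KN.Y2.t pCL pMF pSC
theorem pVJ : S_VJ := Pool.Agent.Helper78.KN.VJ.t
theorem pLP : S_LP := Pool.Agent.Helper83.KN.LP.t pCL
theorem pCO : S_CO := Pool.Agent.Helper64.KN.CO.t pCL pBD pFB pLP
theorem pJI : S_JI := Pool.Agent.Helper76.KN.JI.t pCL
theorem pJE : S_JE := Pool.Agent.Helper63.KN.JE.t pBD pCL pJI pCO
theorem pPW : S_PW := Pool.Agent.Helper7.KN.PW.t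
theorem pAV : S_AV := Pool.Agent.Helper75.KN.AV.t pMF pJE pPW
theorem pAL : S_AL := Pool.Agent.Helper36.KN.AL.t
theorem pKO : S_KO := Pool.Agent.Helper98.KN.KO.t pVJ
theorem pWD : S_WD := Pool.Agent.Helper7.KN.WD.t
theorem pSLW : S_SLW := Pool.Agent.Helper89.KN.SLW.t pMF pSI pSC
theorem pTB : S_TB := Pool.Agent.Helper8.KN.TB.t
theorem pSH : S_SH := Pool.Agent.Helper75.KN.SH.t
theorem pSHS : S_SHS := Pool.Agent.Helper19.KN.SHS.t pMF pSI pSC pTB pSH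
theorem pCC2 : S_CC2 := Pool.Agent.Helper67.KN.CC2.t pMF pSHS
theorem pXX2 : S_XX2 := Pool.Agent.Helper59.KN.XX2.t pCC2
theorem pPO2 : S_PO2 := Pool.Agent.Helper90.KN.PO2.t pMF
theorem pTC : S_TC := Pool.Agent.Helper22.KN.TC.t
theorem pSHE : S_SHE := Pool.Agent.Helper83.KN.SHE.t pMF pSI pSC pTC pSH
theorem pSE : S_SE := Pool.Agent.Helper15.KN.SE.t pMF pSHE
theorem pY1X : S_Y1X := Pool.Agent.Helper24.KN.Y1X.t pWD pSLW
theorem pNA : S_NA := Pool.Agent.Helper46.KN.NA.t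
theorem pNB : S_NB := Pool.Agent.Helper87.KN.NB.t
theorem pDU : S_DU := Pool.Agent.Helper93.KN.DU.t pCL
theorem pFI3 : S_FI3 := fi3 pJE pAV pAL pKO pXX2 pSE pY1X pY2

variable {N : ℕ}

/-- The Newton polyhedron is the set of the points `x ≥ 0` with `⟨w, x⟩ ≥ 1` for all `w ∈ L`; all
`w ∈ L` are nonnegative. -/
def CutBy (V : Finset (Fin N → ℕ)) (L : Set (Fin N → ℝ)) : Prop :=
  (∀ w ∈ L, ∀ j, 0 ≤ w j) ∧ newton V = {x | 0 ≤ x ∧ ∀ w ∈ L, 1 ≤ ∑ j, w j * x j}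

/-- The sum of the normalised volumes of the coordinate sections of the region under the diagram. -/
noncomputable def sections (V : Finset (Fin N → ℕ)) : ℝ :=
  ((N - 1).factorial : ℝ) * ∑ i, vol V (Finset.univ.erase i)

theorem T_one (V : Finset (Fin N → ℕ)) : T V 1 = sections V := by
  unfold T sections
  rw [X_one]
  congr 1
  refine Finset.sum_congr rfl fun i _ => ?_
  rw [pVJ N V {i}]
  congr 1
  ext k
  simp

theorem flat_of_cut (V : Finset (Fin N → ℕ)) (hV : Convenient V) (h0 : (0 : Fin N → ℕ) ∉ V)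
    (L : Set (Fin N → ℝ)) (hL : CutBy V L) (ω θ : ℝ) (hω : 0 < ω) (hθ : 0 < θ)
    (h1 : ∀ w ∈ L, ∀ j, w j ≤ ω) (h2 : ∀ w ∈ L, ∀ i, ∑ j ∈ Finset.univ.erase i, w j ≤ θ) :
    Flat V ω θ :=
  ⟨hV, h0, hω, hθ, L, fun w hw => ⟨fun j => ⟨hL.1 w hw j, h1 w hw j⟩, h2 w hw⟩, hL.2⟩

theorem T_one_pos (hN : 4 ≤ N) (V : Finset (Fin N → ℕ)) (hV : Convenient V)
    (h0 : (0 : Fin N → ℕ) ∉ V) : 0 < T V 1 := by
  unfold T
  rw [X_one]
  apply mul_pos
  · exact_mod_cast Nat.factorial_pos _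
  · have : Nonempty (Fin N) := ⟨⟨0, by omega⟩⟩
    exact Finset.sum_pos (fun i _ => pPO2 N V hV h0 {i}) Finset.univ_nonempty

theorem strict_of (hN : 4 ≤ N) (V : Finset (Fin N → ℕ)) (ω θ h r : ℝ) (hF : Flat V ω θ)
    (hω2 : ω ≤ 2) (hθ2 : θ ≤ 2) (hh0 : 0 < h) (hh2 : h ≤ 1 / 2) (hr0 : 0 ≤ r) (hr1 : r ≤ 1)
    (hr : r * ((N : ℝ) - 1) * ((N : ℝ) - 2) * h ^ 2 ≤ 1 - θ / 3)
    (hk : 1 < ((N : ℝ) - 1) / N * (r * kap N ω h + (1 - r) * kap N θ (1 / 2))) :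
    (N.factorial : ℝ) * genus V < newtonNumber V := by
  have h1 := pFI3 N V ω θ h r hN hF hω2 hθ2 hh0 hh2 hr0 hr1 hr
  have h2 := T_one_pos hN V hF.1 hF.2.1
  have h3 : 0 < (((N : ℝ) - 1) / N * (r * kap N ω h + (1 - r) * kap N θ (1 / 2)) - 1) * T V 1 :=
    mul_pos (by linarith) h2
  linarith

theorem partA (hN : 4 ≤ N) (V : Finset (Fin N → ℕ)) (hV : Convenient V)
    (h0 : (0 : Fin N → ℕ) ∉ V) (L : Set (Fin N → ℝ)) (hL : CutBy V L)
    (h2 : ∀ w ∈ L, ∀ i, ∑ j ∈ Finset.univ.erase i, w j ≤ 1 - 2 / (N : ℝ)) :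
    (N.factorial : ℝ) * genus V < newtonNumber V := by
  have hN4 : (4 : ℝ) ≤ N := by exact_mod_cast hN
  have hθ : 0 < 1 - 2 / (N : ℝ) := by
    rw [sub_pos, div_lt_one (by linarith)]
    linarith
  have hθ1 : 1 - 2 / (N : ℝ) ≤ 1 := by
    have : 0 ≤ 2 / (N : ℝ) := by positivity
    linarith
  have h1 : ∀ w ∈ L, ∀ j, w j ≤ 1 - 2 / (N : ℝ) := by
    intro w hw j
    obtain ⟨i, hi⟩ : ∃ i : Fin N, j ≠ i := by
      by_cases hj : j.val = 0
      · refine ⟨⟨1, by omega⟩, fun h => ?_⟩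
        rw [h] at hj
        simp at hj
      · refine ⟨⟨0, by omega⟩, fun h => ?_⟩
        rw [h] at hj
        simp at hj
    refine le_trans ?_ (h2 w hw i)
    exact Finset.single_le_sum (f := fun k => w k) (fun k _ => hL.1 w hw k)
      (Finset.mem_erase.2 ⟨hi, Finset.mem_univ j⟩)
  have hF := flat_of_cut V hV h0 L hL _ _ hθ hθ h1 h2
  refine strict_of hN V _ _ (1 / 2) 0 hF (by linarith) (by linarith) (by norm_num) le_rfl le_rfl
    (by norm_num) ?_ ?_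
  · have : (1 - 2 / (N : ℝ)) / 3 ≤ 1 := by linarith
    linarith
  · have := pNA N (1 - 2 / (N : ℝ)) hN hθ le_rfl
    simpa using this

theorem partB (hN : 4 ≤ N) (V : Finset (Fin N → ℕ)) (hF : Flat V (1 / N) (((N : ℝ) - 1) / N)) :
    (N.factorial : ℝ) * genus V < newtonNumber V := by
  have hN4 : (4 : ℝ) ≤ N := by exact_mod_cast hN
  obtain ⟨r, hr0, hr1, hr, hk⟩ := pNB N hN
  have a1 : 1 / (N : ℝ) ≤ 1 := by
    rw [div_le_one (by linarith)]
    linarith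
  have a2 : ((N : ℝ) - 1) / N ≤ 1 := by
    rw [div_le_one (by linarith)]
    linarith
  exact strict_of hN V _ _ (1 / 2) r hF (by linarith) (by linarith) (by norm_num) le_rfl hr0 hr1 hr
    hk

theorem partB' (hN : 4 ≤ N) (V : Finset (Fin N → ℕ)) (hV : Convenient V)
    (h0 : (0 : Fin N → ℕ) ∉ V) (L : Set (Fin N → ℝ)) (hL : CutBy V L)
    (h1 : ∀ w ∈ L, ∀ j, w j ≤ 1 / (N : ℝ)) :
    (N.factorial : ℝ) * genus V < newtonNumber V := by
  have hN4 : (4 : ℝ) ≤ N := by exact_mod_cast hN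
  refine partB hN V (flat_of_cut V hV h0 L hL _ _ (by positivity) ?_ h1 ?_)
  · apply div_pos <;> linarith
  · intro w hw i
    refine (Finset.sum_le_sum fun j _ => h1 w hw j).trans (le_of_eq ?_)
    rw [Finset.sum_const, Finset.card_erase_of_mem (Finset.mem_univ _), Finset.card_univ,
      Fintype.card_fin, nsmul_eq_mul, Nat.cast_sub (by omega)]
    push_cast
    ring

theorem partT (hN : 4 ≤ N) (V : Finset (Fin N → ℕ)) (hV : Convenient V)
    (h0 : (0 : Fin N → ℕ) ∉ V) (h : ∀ v ∈ V, ∀ i, v i ≠ 0 → N ≤ v i) :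
    (N.factorial : ℝ) * genus V < newtonNumber V := by
  have hN4 : (4 : ℝ) ≤ N := by exact_mod_cast hN
  refine partB hN V (pDU N V N (by omega) ⟨hV, by linarith, h0, fun v hv i hi => ?_⟩)
  exact_mod_cast h v hv i hi

end Pool.Agent.Helper70.KN
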