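import Pool.Agent.Helper70.KN.FI4
import Pool.Agent.Helper84.KN.RH
import Pool.Agent.Helper77.KN.DM
import Pool.Agent.Helper22.KN.SG
import Pool.Agent.Helper15.KN.FBF
import Pool.Agent.Helper91.KN.LC
import Pool.Agent.Helper32.KN.FX
import Pool.Agent.Helper71.KN.HO
import Pool.Agent.Helper52.KN.SLD
import Pool.Agent.Helper17.KN.RV
import Pool.Agent.Helper24.KN.RW
import Pool.Agent.Helper83.KN.SE4
import Pool.Agent.Helper90.KN.SU4
import Pool.Agent.Helper16.KN.TB4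
import Pool.Agent.Helper51.KN.SHS4
import Pool.Agent.Helper89.KN.XX4
import Pool.Agent.Helper13.KN.CLO
import Pool.Agent.Helper67.KN.KP
import Pool.Agent.Helper81.KN.NU3
import Pool.Agent.Helper15.KN.NU4
import Pool.Agent.Helper12.KN.NU5
import Pool.Agent.Helper33.KN.NU6
import Pool.Agent.Helper7.KN.NU1

/-!
# Project KN (MP_20ee5e_ag): assembly of THEOREM D
-/

open MeasureTheory Set

namespace Pool.Agent.Helper70.KN

theorem pRH : S_RH := Pool.Agent.Helper84.KN.RH.t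
theorem pDM : S_DM := Pool.Agent.Helper77.KN.DM.t pRH
theorem pSG : S_SG := Pool.Agent.Helper22.KN.SG.t
theorem pFBF : S_FBF := Pool.Agent.Helper15.KN.FBF.t
theorem pLC : S_LC := Pool.Agent.Helper91.KN.LC.t pMF pSC pRH
theorem pFX : S_FX := Pool.Agent.Helper32.KN.FX.t pMF pBD pRH pDM pSG pFBF pLC
theorem pHO : S_HO := Pool.Agent.Helper71.KN.HO.t' pMF pSC pRH
theorem pSLD : S_SLD := Pool.Agent.Helper52.KN.SLD.t pRH pDM pHO
theorem pRV : S_RV := Pool.Agent.Helper17.KN.RV.t pMF pSI pSH pSLD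
theorem pRW : S_RW := Pool.Agent.Helper24.KN.RW.t pMF pDM pFX pRV
theorem pSE4 : S_SE4 := Pool.Agent.Helper83.KN.SE4.t pMF pRW
theorem pSU4 : S_SU4 := Pool.Agent.Helper90.KN.SU4.t
theorem pTB4 : S_TB4 := Pool.Agent.Helper16.KN.TB4.t
theorem pSHS4 : S_SHS4 := Pool.Agent.Helper51.KN.SHS4.t pMF pSI pSC pTB4 pSH
theorem pXX4 : S_XX4 := Pool.Agent.Helper89.KN.XX4.t pMF pSHS4
theorem pCLO : S_CLO := Pool.Agent.Helper13.KN.CLO.t
theorem pKP : S_KP := Pool.Agent.Helper67.KN.KP.t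
theorem pNU3 : S_NU3 := Pool.Agent.Helper81.KN.NU3.t pKP
theorem pNU4 : S_NU4 := Pool.Agent.Helper15.KN.NU4.t pKP
theorem pNU5 : S_NU5 := Pool.Agent.Helper12.KN.NU5.t pKP
theorem pNU6 : S_NU6 := Pool.Agent.Helper33.KN.NU6.t pKP
theorem pNU1 : S_NU1 := Pool.Agent.Helper7.KN.NU1.t pKP
theorem pFI4 : S_FI4 := fi4 pSE4 pSU4 pXX4

variable {N : ℕ}

theorem of_num (hN : 4 ≤ N) (V : Finset (Fin N → ℕ)) (hV : Convenient V)
    (h0 : (0 : Fin N → ℕ) ∉ V) (L : Set (Fin N → ℝ)) (hL : CutBy V L) (ω η : ℝ) (hω : 0 < ω)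
    (hη : 0 < η) (hη3 : η ≤ 3) (h1 : ∀ w ∈ L, ∀ j, w j ≤ ω)
    (hs1 : ∀ w ∈ L, ∀ i, ∑ j ∈ Finset.univ.erase i, w j ≤ 2)
    (hs2 : ∀ w ∈ L, ∀ J : Finset (Fin N), J.card = 2 → ∑ j ∈ Jᶜ, w j ≤ η) (hnum : Num N ω η) :
    (N.factorial : ℝ) * genus V < newtonNumber V := by
  obtain ⟨hC, hs⟩ := pCLO N V L ω hV h0 hω (fun w hw j => ⟨hL.1 w hw j, h1 w hw j⟩) hL.2
  exact pFI4 N V (closure L) ω η hN hC hη hη3
    (fun w hw i => hs (Finset.univ.erase i) 2 (fun w hw => hs1 w hw i) w hw)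
    (fun w hw J hJ => hs Jᶜ η (fun w hw => hs2 w hw J hJ) w hw) hnum

theorem card_compl_two (J : Finset (Fin N)) (hJ : J.card = 2) : (Jᶜ.card : ℝ) = N - 2 := by
  have h1 : J.card + Jᶜ.card = N := by
    rw [Finset.card_add_card_compl, Fintype.card_fin]
  have h2 : ((J.card : ℕ) : ℝ) + (Jᶜ.card : ℕ) = N := by exact_mod_cast h1
  rw [hJ] at h2
  push_cast at h2
  linarith

theorem card_erase_real (hN : 1 ≤ N) (i : Fin N) :
    (((Finset.univ : Finset (Fin N)).erase i).card : ℝ) = N - 1 := by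
  rw [Finset.card_erase_of_mem (Finset.mem_univ _), Finset.card_univ, Fintype.card_fin,
    Nat.cast_sub hN]
  push_cast
  ring

/-- All weights at most `ω`. -/
theorem of_num_weights (hN : 4 ≤ N) (V : Finset (Fin N → ℕ)) (hV : Convenient V)
    (h0 : (0 : Fin N → ℕ) ∉ V) (L : Set (Fin N → ℝ)) (hL : CutBy V L) (ω : ℝ) (hω : 0 < ω)
    (hω2 : ((N : ℝ) - 1) * ω ≤ 2) (h1 : ∀ w ∈ L, ∀ j, w j ≤ ω) (hnum : Num N ω (((N : ℝ) - 2) * ω)) :
    (N.factorial : ℝ) * genus V < newtonNumber V := by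
  have hN4 : (4 : ℝ) ≤ N := by exact_mod_cast hN
  refine of_num hN V hV h0 L hL ω (((N : ℝ) - 2) * ω) hω (mul_pos (by linarith) hω) ?_ h1 ?_ ?_ hnum
  · have : ((N : ℝ) - 2) * ω ≤ ((N : ℝ) - 1) * ω := mul_le_mul_of_nonneg_right (by linarith) hω.le
    linarith
  · intro w hw i
    refine ((Finset.sum_le_sum fun j _ => h1 w hw j).trans (le_of_eq ?_)).trans hω2
    rw [Finset.sum_const, nsmul_eq_mul, card_erase_real (by omega)]
  · intro w hw J hJ
    refine (Finset.sum_le_sum fun j _ => h1 w hw j).trans (le_of_eq ?_)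
    rw [Finset.sum_const, nsmul_eq_mul, card_compl_two J hJ]

/-- `n ≥ 4`, all weights at most `4/(3n)`. -/
theorem partD1 (hN : 5 ≤ N) (V : Finset (Fin N → ℕ)) (hV : Convenient V)
    (h0 : (0 : Fin N → ℕ) ∉ V) (L : Set (Fin N → ℝ)) (hL : CutBy V L)
    (h1 : ∀ w ∈ L, ∀ j, w j ≤ 4 / (3 * ((N : ℝ) - 1))) :
    (N.factorial : ℝ) * genus V < newtonNumber V := by
  have hN5 : (5 : ℝ) ≤ N := by exact_mod_cast hN
  have hp : 0 < 3 * ((N : ℝ) - 1) := by linarith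
  refine of_num_weights (by omega) V hV h0 L hL (4 / (3 * ((N : ℝ) - 1))) (by positivity) ?_ h1 ?_
  · rw [mul_div_assoc', div_le_iff₀ hp]
    linarith
  · rcases Nat.lt_or_ge N 7 with h7 | h7
    · rcases (by omega : N = 5 ∨ N = 6) with rfl | rfl
      · have := pNU4
        unfold S_NU4 at this
        norm_num
        exact this
      · have := pNU5
        unfold S_NU5 at this
        norm_num
        exact this
    · have := pNU6 N h7
      have e : 4 * ((N : ℝ) - 2) / (3 * ((N : ℝ) - 1)) = ((N : ℝ) - 2) * (4 / (3 * ((N : ℝ) - 1))) := by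
        ring
      rw [e] at this
      exact this

/-- `n = 3`, all weights at most `2/5`. -/
theorem partD2 (V : Finset (Fin 4 → ℕ)) (hV : Convenient V)
    (h0 : (0 : Fin 4 → ℕ) ∉ V) (L : Set (Fin 4 → ℝ)) (hL : CutBy V L)
    (h1 : ∀ w ∈ L, ∀ j, w j ≤ 2 / 5) :
    ((Nat.factorial 4 : ℕ) : ℝ) * genus V < newtonNumber V := by
  refine of_num_weights (by norm_num) V hV h0 L hL (2 / 5) (by norm_num) (by norm_num) h1 ?_
  have := pNU3
  unfold S_NU3 at this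
  norm_num
  exact this

/-- All weights at most `2/5` and all sums of `n` weights at most `1`. -/
theorem partD3 (hN : 4 ≤ N) (V : Finset (Fin N → ℕ)) (hV : Convenient V)
    (h0 : (0 : Fin N → ℕ) ∉ V) (L : Set (Fin N → ℝ)) (hL : CutBy V L)
    (h1 : ∀ w ∈ L, ∀ j, w j ≤ 2 / 5)
    (h2 : ∀ w ∈ L, ∀ i, ∑ j ∈ Finset.univ.erase i, w j ≤ 1) :
    (N.factorial : ℝ) * genus V < newtonNumber V := by
  rcases Nat.lt_or_ge N 5 with h5 | h5
  · obtain rfl : N = 4 := by omega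
    exact partD2 V hV h0 L hL h1
  · refine of_num hN V hV h0 L hL (2 / 5) 1 (by norm_num) (by norm_num) (by norm_num) h1
      (fun w hw i => (h2 w hw i).trans (by norm_num)) ?_ (pNU1 N h5)
    intro w hw J hJ
    obtain ⟨i, hi⟩ := Finset.card_pos.1 (by omega : 0 < J.card)
    refine le_trans ?_ (h2 w hw i)
    refine Finset.sum_le_sum_of_subset_of_nonneg ?_ (fun j _ _ => hL.1 w hw j)
    intro j hj
    rw [Finset.mem_compl] at hj
    exact Finset.mem_erase.2 ⟨fun h => hj (h ▸ hi), Finset.mem_univ j⟩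

/-- All nonzero coordinates of the exponents in `V` are at least `3n/4`. -/
theorem partD4 (hN : 4 ≤ N) (V : Finset (Fin N → ℕ)) (hV : Convenient V)
    (h0 : (0 : Fin N → ℕ) ∉ V) (h : ∀ v ∈ V, ∀ i, v i ≠ 0 → 3 * (N - 1) ≤ 4 * v i) :
    (N.factorial : ℝ) * genus V < newtonNumber V := by
  have hN4 : (4 : ℝ) ≤ N := by exact_mod_cast hN
  have hcast : ((3 * (N - 1) : ℕ) : ℝ) = 3 * ((N : ℝ) - 1) := by
    rw [Nat.cast_mul, Nat.cast_sub (by omega)]
    push_cast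
    ring
  rcases Nat.lt_or_ge N 5 with h5 | h5
  · obtain rfl : N = 4 := by omega
    obtain ⟨-, -, -, -, L, hL, hnew⟩ := pDU 4 V 3 (by norm_num) ⟨hV, by norm_num, h0, fun v hv i hi => by
      have h1 := h v hv i hi
      have h2 : 3 ≤ v i := by omega
      exact_mod_cast h2⟩
    refine partD2 V hV h0 L ⟨fun w hw j => ((hL w hw).1 j).1, hnew⟩ fun w hw j => ?_
    refine ((hL w hw).1 j).2.trans (by norm_num)
  · obtain ⟨-, -, -, -, L, hL, hnew⟩ := pDU N V (3 * ((N : ℝ) - 1) / 4) (by omega)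
      ⟨hV, by linarith, h0, fun v hv i hi => by
      have h1 := h v hv i hi
      have h2 : ((3 * (N - 1) : ℕ) : ℝ) ≤ ((4 * v i : ℕ) : ℝ) := by exact_mod_cast h1
      rw [hcast] at h2
      push_cast at h2
      linarith⟩
    refine partD1 h5 V hV h0 L ⟨fun w hw j => ((hL w hw).1 j).1, hnew⟩ fun w hw j => ?_
    refine ((hL w hw).1 j).2.trans (le_of_eq ?_)
    rw [one_div_div]

end Pool.Agent.Helper70.KN
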