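import Mathlib

/-!
# The Newton number and the geometric genus of a convenient Newton diagram (MP_20ee5e_ag), definitions
-/

open MeasureTheory Set

namespace Pool.Agent.Helper70.KN

variable {N : ℕ}

/-- The Newton polyhedron of the finite set `V` of exponents: the set of all `x` which are, coordinate by
coordinate, at least as large as some point of the convex hull of `V`. -/
def newton (V : Finset (Fin N → ℕ)) : Set (Fin N → ℝ) :=
  {x | ∃ z ∈ convexHull ℝ ((fun (v : Fin N → ℕ) (i : Fin N) => (v i : ℝ)) '' (V : Set (Fin N → ℕ))), z ≤ x}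

/-- The region under the Newton diagram: the complement of the Newton polyhedron in the orthant. -/
def under (V : Finset (Fin N → ℕ)) : Set (Fin N → ℝ) := {x | 0 ≤ x ∧ x ∉ newton V}

/-- Extension by zero of a vector indexed by `I`. -/
def extz (I : Finset (Fin N)) (y : I → ℝ) : Fin N → ℝ := fun i => if h : i ∈ I then y ⟨i, h⟩ else 0

/-- The `|I|`-dimensional volume of the part of the region under the diagram in the coordinate
subspace `ℝ^I`. -/
noncomputable def vol (V : Finset (Fin N → ℕ)) (I : Finset (Fin N)) : ℝ :=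
  (volume {y : I → ℝ | extz I y ∈ under V}).toReal

/-- Kouchnirenko's Newton number: the sum over all `I` of `(-1)^(N-|I|) |I|! vol_I`. -/
noncomputable def newtonNumber (V : Finset (Fin N → ℕ)) : ℝ :=
  ∑ I : Finset (Fin N), (-1) ^ (N - I.card) * (I.card.factorial : ℝ) * vol V I

/-- The number of lattice points with positive coordinates that are not in the interior of the Newton
polyhedron (on or below the Newton diagram). -/
noncomputable def genus (V : Finset (Fin N → ℕ)) : ℕ :=
  {p : Fin N → ℕ | (∀ i, 0 < p i) ∧ (fun i => (p i : ℝ)) ∉ interior (newton V)}.ncard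

/-- `V` is convenient: it contains a positive multiple of every coordinate vector. -/
def Convenient (V : Finset (Fin N → ℕ)) : Prop :=
  ∀ i, ∃ m : ℕ, 0 < m ∧ (Pi.single i m : Fin N → ℕ) ∈ V

/-- Convenient, without the exponent zero, and all nonzero coordinates are at least `c`. -/
def Thick (V : Finset (Fin N → ℕ)) (c : ℝ) : Prop :=
  Convenient V ∧ 0 < c ∧ (0 : Fin N → ℕ) ∉ V ∧ ∀ v ∈ V, ∀ i, v i ≠ 0 → c ≤ v i

/-- `x` with the coordinates in `J` replaced by `0`. -/
def zr (J : Finset (Fin N)) (x : Fin N → ℝ) : Fin N → ℝ := fun i => if i ∈ J then 0 else x i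

/-- The cylinder with base the part of the region in the subspace `x_J = 0`. -/
def cyl (V : Finset (Fin N → ℕ)) (J : Finset (Fin N)) : Set (Fin N → ℝ) :=
  {x | 0 ≤ x ∧ (∀ j ∈ J, x j < 1) ∧ zr J x ∉ newton V}

/-- Its volume. -/
noncomputable def W (V : Finset (Fin N → ℕ)) (J : Finset (Fin N)) : ℝ := (volume (cyl V J)).toReal

/-- The part of the region where the coordinates in `J` are less than `h`. -/
def part (V : Finset (Fin N → ℕ)) (h : ℝ) (J : Finset (Fin N)) : Set (Fin N → ℝ) :=
  {x | 0 ≤ x ∧ (∀ j ∈ J, x j < h) ∧ x ∉ newton V}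

/-- Its volume. -/
noncomputable def Y (V : Finset (Fin N → ℕ)) (h : ℝ) (J : Finset (Fin N)) : ℝ :=
  (volume (part V h J)).toReal

/-- The sum of the volumes `W V J` over all `J` with `k` elements. -/
noncomputable def X (V : Finset (Fin N → ℕ)) (k : ℕ) : ℝ :=
  ∑ J ∈ (Finset.univ : Finset (Fin N)).powersetCard k, W V J

/-- `(N - k)! X_k`. -/
noncomputable def T (V : Finset (Fin N → ℕ)) (k : ℕ) : ℝ := ((N - k).factorial : ℝ) * X V k

/-- The open column of side `1` over the integral point `p`, in the direction `i`. -/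
def col (i : Fin N) (p : Fin N → ℕ) : Set (Fin N → ℝ) := {x | ∀ j, j ≠ i → |x j - p j| < 1 / 2}

/-- The length of the part of the region over `x` in the direction `i`. -/
noncomputable def len (V : Finset (Fin N → ℕ)) (i : Fin N) (x : Fin N → ℝ) : ENNReal :=
  volume {t : ℝ | 0 ≤ t ∧ Function.update x i t ∉ newton V}

end Pool.Agent.Helper70.KN
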