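import Pool.Agent.Helper70.KN.Goals

/-!
# Project KN (MP_20ee5e_ag): the final inequality
-/

open MeasureTheory Set

namespace Pool.Agent.Helper70.KN

theorem fi_num (M c T1 T2 T3 : ℝ) (hM : 3 ≤ M) (hc : 3 * M ≤ 2 * c) (hT1 : 0 < T1) (hT2 : 0 ≤ T2)
    (hT3 : 0 ≤ T3) (h2 : 2 * c * T2 ≤ M * T1) (h3 : 3 * c * T3 ≤ (M - 1) * T2) :
    0 < T1 * (1 / 2 - 9 / (8 * c)) + T2 * (1 - 9 * (M - 1) / (4 * M)) - T3 := by
  have hM0 : 0 < M := by linarith
  have hc0 : 0 < c := by linarith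
  have h3' : 9 * M * T3 ≤ 2 * (M - 1) * T2 := by nlinarith
  have h4 : 0 < M * T1 * (4 * c - 9) + c * T2 * (8 * M - 18 * (M - 1)) - 8 * c * M * T3 := by
    have h5 : 8 * c * M * T3 ≤ 16 / 9 * (M - 1) * (c * T2) := by
      have := mul_le_mul_of_nonneg_left h3' (by positivity : 0 ≤ 8 / 9 * c)
      nlinarith
    have h6 : c * T2 ≤ M / 2 * T1 := by linarith
    have h7 : (106 / 9 * (M - 1) - 8) * (c * T2) ≤ (106 / 9 * (M - 1) - 8) * (M / 2 * T1) :=
      mul_le_mul_of_nonneg_left h6 (by linarith)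
    have h8 : 0 < M * T1 := by positivity
    have h9 : 0 < M * T1 * (4 * c - 5 - 53 / 9 * (M - 1)) := by
      apply mul_pos h8
      linarith
    nlinarith
  have h5 : T1 * (1 / 2 - 9 / (8 * c)) + T2 * (1 - 9 * (M - 1) / (4 * M)) - T3 =
      (M * T1 * (4 * c - 9) + c * T2 * (8 * M - 18 * (M - 1)) - 8 * c * M * T3) / (8 * c * M) := by
    field_simp
    ring
  rw [h5]
  positivity

theorem W_nonneg {N : ℕ} (V : Finset (Fin N → ℕ)) (J : Finset (Fin N)) : 0 ≤ W V J :=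
  ENNReal.toReal_nonneg

theorem X_nonneg {N : ℕ} (V : Finset (Fin N → ℕ)) (k : ℕ) : 0 ≤ X V k :=
  Finset.sum_nonneg fun J _ => W_nonneg V J

theorem T_nonneg {N : ℕ} (V : Finset (Fin N → ℕ)) (k : ℕ) : 0 ≤ T V k :=
  mul_nonneg (Nat.cast_nonneg _) (X_nonneg V k)

theorem X_zero {N : ℕ} (V : Finset (Fin N → ℕ)) : X V 0 = W V ∅ := by
  simp [X]

theorem X_one {N : ℕ} (V : Finset (Fin N → ℕ)) : X V 1 = ∑ i, W V {i} := by
  unfold X
  rw [Finset.powersetCard_one, Finset.sum_map]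
  rfl

theorem fi (hAV : S_AV) (hAL : S_AL) (hKO : S_KO) (hXX : S_XX) (hPO : S_PO) (hY1 : S_Y1)
    (hY2 : S_Y2) : S_FI := by
  intro N V c hN hT hc
  have hconv := hT.1
  have hN4 : (4 : ℝ) ≤ N := by exact_mod_cast hN
  set M : ℝ := (N : ℝ) - 1 with hM
  have hM3 : 3 ≤ M := by rw [hM]; linarith
  have hM0 : 0 < M := by linarith
  have hc0 : 0 < c := hT.2.1
  set h : ℝ := 3 / (2 * M) with hh
  have hh0 : 0 < h := by positivity
  have hMh : M * h = 3 / 2 := by
    rw [hh]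
    field_simp
  have hh2 : h ≤ 1 / 2 := by
    rw [hh, div_le_div_iff₀ (by positivity) (by norm_num)]
    linarith
  have hhc : h ≤ c := by linarith
  -- decreasing
  have hdec : ∀ k, 1 ≤ k → T V (k + 1) ≤ T V k := by
    intro k hk
    rcases lt_or_ge k N with hkN | hkN
    · have h1 := hXX N V c hT k hkN
      have hk1 : (1 : ℝ) ≤ k := by exact_mod_cast hk
      have h2 : (N : ℝ) - k ≤ ((k : ℝ) + 1) * c := by nlinarith
      have h3 := mul_le_mul_of_nonneg_right h2 (T_nonneg V k)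
      have h4 : 0 < ((k : ℝ) + 1) * c := by positivity
      have h5 : ((k : ℝ) + 1) * c * T V (k + 1) ≤ ((k : ℝ) + 1) * c * T V k := h1.trans h3
      exact le_of_mul_le_mul_left h5 h4
    · have : T V (k + 1) = 0 := by
        unfold T X
        rw [Finset.powersetCard_eq_empty.2 (by simp; omega)]
        simp
      rw [this]
      exact T_nonneg V k
  have hmu := hAL N (T V) (T_nonneg V) hdec (by omega)
  rw [← hKO N V] at hmu
  have hX2 := hXX N V c hT 1 (by omega)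
  have hX3 := hXX N V c hT 2 (by omega)
  have hT1 : 0 < T V 1 := by
    unfold T
    rw [X_one]
    apply mul_pos
    · exact_mod_cast Nat.factorial_pos _
    · have : Nonempty (Fin N) := ⟨⟨0, by omega⟩⟩
      exact Finset.sum_pos (fun i _ => hPO N V c hT {i}) Finset.univ_nonempty
  have hA := hAV N (by omega) V hconv h hh0.le hh2
  have hB : (h - M * h ^ 2 / (2 * c)) * X V 1 ≤ ∑ i, Y V h {i} := by
    rw [X_one, Finset.mul_sum]
    exact Finset.sum_le_sum fun i _ => hY1 N V c hT i h hh0.le hhc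
  have hC : ∑ J ∈ (Finset.univ : Finset (Fin N)).powersetCard 2, Y V h J ≤ h ^ 2 * X V 2 := by
    unfold X
    rw [Finset.mul_sum]
    refine Finset.sum_le_sum fun J hJ => ?_
    have h1 := hY2 N V hconv J h hh0
    rw [(Finset.mem_powersetCard.1 hJ).2] at h1
    exact h1
  -- factorials
  obtain ⟨n, rfl⟩ : ∃ n, N = n + 2 := ⟨N - 2, by omega⟩
  have hf1 : ((n + 2).factorial : ℝ) = (M + 1) * ((n + 1).factorial : ℝ) := by
    rw [Nat.factorial_succ (n + 1), hM]
    push_cast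
    ring
  have hf2 : ((n + 1).factorial : ℝ) = M * (n.factorial : ℝ) := by
    rw [Nat.factorial_succ n, hM]
    push_cast
    ring
  have hT0 : T V 0 = ((n + 2).factorial : ℝ) * W V ∅ := by
    unfold T
    rw [X_zero]
    rfl
  have hT1' : T V 1 = ((n + 1).factorial : ℝ) * X V 1 := rfl
  have hT2' : T V 2 = (n.factorial : ℝ) * X V 2 := rfl
  have hfp : (0 : ℝ) < ((n + 1).factorial : ℝ) := by exact_mod_cast Nat.factorial_pos _
  have hcast : ((n + 2 : ℕ) : ℝ) = M + 1 := by rw [hM]; ring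
  have hcast2 : ((n + 2 : ℕ) : ℝ) - 2 = M - 1 := by rw [hcast]; ring
  -- the bound of the genus
  have hG : ((n + 2).factorial : ℝ) * genus V ≤ T V 0 - (3 / 2 - 9 / (8 * c)) * T V 1 +
      9 * (M - 1) / (4 * M) * T V 2 := by
    have e1 : M * (h - M * h ^ 2 / (2 * c)) = 3 / 2 - 9 / (8 * c) := by
      have : M * (h - M * h ^ 2 / (2 * c)) = M * h - (M * h) ^ 2 / (2 * c) := by ring
      rw [this, hMh]
      field_simp
      ring
    have e2 : (M - 1) * h ^ 2 * M = 9 * (M - 1) / (4 * M) := by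
      rw [hh]
      field_simp
      ring
    have g1 : ((n + 2 : ℕ) : ℝ) * genus V ≤ (M + 1) * W V ∅ - (3 / 2 - 9 / (8 * c)) * X V 1 +
        (M - 1) * h ^ 2 * X V 2 := by
      rw [hcast2, ← hM] at hA
      have a1 : M * ((h - M * h ^ 2 / (2 * c)) * X V 1) ≤ M * ∑ i, Y V h {i} :=
        mul_le_mul_of_nonneg_left hB hM0.le
      have a2 : (M - 1) * ∑ J ∈ (Finset.univ : Finset (Fin (n + 2))).powersetCard 2, Y V h J ≤
          (M - 1) * (h ^ 2 * X V 2) := mul_le_mul_of_nonneg_left hC (by linarith)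
      rw [← mul_assoc, e1] at a1
      rw [hcast] at hA ⊢
      linarith
    have g2 := mul_le_mul_of_nonneg_left g1 hfp.le
    calc ((n + 2).factorial : ℝ) * genus V
        = ((n + 1).factorial : ℝ) * (((n + 2 : ℕ) : ℝ) * genus V) := by
          rw [hf1, hcast]
          ring
      _ ≤ _ := g2
      _ = T V 0 - (3 / 2 - 9 / (8 * c)) * T V 1 + (M - 1) * h ^ 2 * M * T V 2 := by
          rw [hT0, hT1', hT2', hf1]
          have : ((n + 1).factorial : ℝ) * ((M - 1) * h ^ 2 * X V 2) =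
              (M - 1) * h ^ 2 * M * ((n.factorial : ℝ) * X V 2) := by
            rw [hf2]
            ring
          rw [mul_add, mul_sub, this]
          ring
      _ = _ := by rw [e2]
  have h2 : 2 * c * T V 2 ≤ M * T V 1 := by
    have : (((1 : ℕ) : ℝ) + 1) * c * T V (1 + 1) ≤ (((n + 2 : ℕ) : ℝ) - (1 : ℕ)) * T V 1 := hX2
    rw [hcast] at this
    norm_num at this
    linarith
  have h3 : 3 * c * T V 3 ≤ (M - 1) * T V 2 := by
    have : (((2 : ℕ) : ℝ) + 1) * c * T V (2 + 1) ≤ (((n + 2 : ℕ) : ℝ) - (2 : ℕ)) * T V 2 := hX3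
    rw [hcast] at this
    norm_num at this
    linarith
  have hfin := fi_num M c (T V 1) (T V 2) (T V 3) hM3 (by linarith) hT1 (T_nonneg V 2)
    (T_nonneg V 3) h2 h3
  have e3 : T V 1 * (1 / 2 - 9 / (8 * c)) + T V 2 * (1 - 9 * (M - 1) / (4 * M)) - T V 3 =
      (T V 0 - T V 1 + T V 2 - T V 3) - (T V 0 - (3 / 2 - 9 / (8 * c)) * T V 1 +
      9 * (M - 1) / (4 * M) * T V 2) := by ring
  rw [e3] at hfin
  linarith

end Pool.Agent.Helper70.KN
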