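import Pool.Agent.Helper70.KN.Goals2
import Pool.Agent.Helper70.KN.FI

/-!
# Project KN (MP_20ee5e_ag): the final inequality, conditions on the weights
-/

open MeasureTheory Set

namespace Pool.Agent.Helper70.KN

theorem fi2_num (M ω θ T1 T2 T3 : ℝ) (hM : 3 ≤ M) (hθ : 0 < θ)
    (h2 : 2 * T2 ≤ θ * T1) (h3 : 3 * T3 ≤ θ * T2) :
    (12 - (27 * (ω - θ / M) + 15 * θ + 4 * θ ^ 2)) / 24 * T1 ≤
      T1 * (1 / 2 - 9 * ω / 8) + T2 * (1 - 9 * (M - 1) / (4 * M)) - T3 := by
  have hM0 : 0 < M := by linarith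
  have hk : 0 ≤ 5 / 4 - 9 / (4 * M) + θ / 3 := by
    have : 9 / (4 * M) ≤ 3 / 4 := by
      rw [div_le_div_iff₀ (by positivity) (by norm_num)]
      linarith
    linarith
  have h5 : (5 / 4 - 9 / (4 * M) + θ / 3) * (2 * T2) ≤ (5 / 4 - 9 / (4 * M) + θ / 3) * (θ * T1) :=
    mul_le_mul_of_nonneg_left h2 hk
  have h6 : T2 * (1 - 9 * (M - 1) / (4 * M)) = -(5 / 4 - 9 / (4 * M)) * T2 := by
    field_simp
    ring
  have h7 : (12 - (27 * (ω - θ / M) + 15 * θ + 4 * θ ^ 2)) / 24 * T1 =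
      T1 * (1 / 2 - 9 * ω / 8) - (5 / 4 - 9 / (4 * M) + θ / 3) * (θ * T1) / 2 := by
    field_simp
    ring
  rw [h6, h7]
  linarith

theorem fi2 (hAV : S_AV) (hAL : S_AL) (hKO : S_KO) (hXX : S_XX2) (hWD : S_WD) (hY1 : S_Y1W)
    (hY2 : S_Y2) : S_FI2 := by
  intro N V ω θ hN hF hH
  have hconv := hF.1
  have hω0 : 0 < ω := hF.2.2.1
  have hθ0 : 0 < θ := hF.2.2.2.1
  have hW := hWD N V ω θ hF
  have hN4 : (4 : ℝ) ≤ N := by exact_mod_cast hN
  set M : ℝ := (N : ℝ) - 1 with hM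
  have hM3 : 3 ≤ M := by rw [hM]; linarith
  have hM0 : 0 < M := by linarith
  have hθM : θ / M ≤ θ / 3 := div_le_div_of_nonneg_left hθ0.le (by norm_num) hM3
  have hω1 : ω < 1 := by nlinarith
  have hθ2 : θ ≤ 2 := by nlinarith
  set h : ℝ := 3 / (2 * M) with hh
  have hh0 : 0 < h := by positivity
  have hMh : M * h = 3 / 2 := by
    rw [hh]
    field_simp
  have hh2 : h ≤ 1 / 2 := by
    rw [hh, div_le_div_iff₀ (by positivity) (by norm_num)]
    linarith
  have hhc : h ≤ 1 / ω := by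
    rw [le_div_iff₀ hω0]
    nlinarith
  -- decreasing
  have hdec : ∀ k, 1 ≤ k → T V (k + 1) ≤ T V k := by
    intro k hk
    rcases lt_or_ge k N with hkN | hkN
    · have h1 := hXX N V ω θ hF k hk hkN
      have hk1 : (1 : ℝ) ≤ k := by exact_mod_cast hk
      have h2 : θ ≤ (k : ℝ) + 1 := by linarith
      have h3 := mul_le_mul_of_nonneg_right h2 (T_nonneg V k)
      have h4 : 0 < (k : ℝ) + 1 := by positivity
      exact le_of_mul_le_mul_left (h1.trans h3) h4
    · have : T V (k + 1) = 0 := by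
        unfold T X
        rw [Finset.powersetCard_eq_empty.2 (by simp; omega)]
        simp
      rw [this]
      exact T_nonneg V k
  have hmu := hAL N (T V) (T_nonneg V) hdec (by omega)
  rw [← hKO N V] at hmu
  have hX2 := hXX N V ω θ hF 1 le_rfl (by omega)
  have hX3 := hXX N V ω θ hF 2 (by norm_num) (by omega)
  have hA := hAV N (by omega) V hconv h hh0.le hh2
  have hB : (h - M * h ^ 2 * ω / 2) * X V 1 ≤ ∑ i, Y V h {i} := by
    rw [X_one, Finset.mul_sum]
    refine Finset.sum_le_sum fun i _ => ?_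
    have := hY1 N V (1 / ω) hW i h hh0.le hhc
    have e : (h - ((N : ℝ) - 1) * h ^ 2 / (2 * (1 / ω))) = h - M * h ^ 2 * ω / 2 := by
      rw [← hM]
      field_simp
    rw [e] at this
    exact this
  have hC : ∑ J ∈ (Finset.univ : Finset (Fin N)).powersetCard 2, Y V h J ≤ h ^ 2 * X V 2 := by
    unfold X
    rw [Finset.mul_sum]
    refine Finset.sum_le_sum fun J hJ => ?_
    have h1 := hY2 N V hconv J h hh0
    rw [(Finset.mem_powersetCard.1 hJ).2] at h1
    exact h1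
  -- factorials
  obtain ⟨n, rfl⟩ : ∃ n, N = n + 2 := ⟨N - 2, by omega⟩
  have hf1 : ((n + 2).factorial : ℝ) = (M + 1) * ((n + 1).factorial : ℝ) := by
    rw [Nat.factorial_succ (n + 1), hM]
    push_cast
    ring
  have hf2 : ((n + 1).factorial : ℝ) = M * (n.factorial : ℝ) := by
    rw [Nat.factorial_succ n, hM]
    push_cast
    ring
  have hT0 : T V 0 = ((n + 2).factorial : ℝ) * W V ∅ := by
    unfold T
    rw [X_zero]
    rfl
  have hT1' : T V 1 = ((n + 1).factorial : ℝ) * X V 1 := rfl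
  have hT2' : T V 2 = (n.factorial : ℝ) * X V 2 := rfl
  have hfp : (0 : ℝ) < ((n + 1).factorial : ℝ) := by exact_mod_cast Nat.factorial_pos _
  have hcast : ((n + 2 : ℕ) : ℝ) = M + 1 := by rw [hM]; ring
  have hcast2 : ((n + 2 : ℕ) : ℝ) - 2 = M - 1 := by rw [hcast]; ring
  -- the bound of the genus
  have hG : ((n + 2).factorial : ℝ) * genus V ≤ T V 0 - (3 / 2 - 9 * ω / 8) * T V 1 +
      9 * (M - 1) / (4 * M) * T V 2 := by
    have e1 : M * (h - M * h ^ 2 * ω / 2) = 3 / 2 - 9 * ω / 8 := by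
      have : M * (h - M * h ^ 2 * ω / 2) = M * h - (M * h) ^ 2 * ω / 2 := by ring
      rw [this, hMh]
      ring
    have e2 : (M - 1) * h ^ 2 * M = 9 * (M - 1) / (4 * M) := by
      rw [hh]
      field_simp
      ring
    have g1 : ((n + 2 : ℕ) : ℝ) * genus V ≤ (M + 1) * W V ∅ - (3 / 2 - 9 * ω / 8) * X V 1 +
        (M - 1) * h ^ 2 * X V 2 := by
      rw [hcast2, ← hM] at hA
      have a1 : M * ((h - M * h ^ 2 * ω / 2) * X V 1) ≤ M * ∑ i, Y V h {i} :=
        mul_le_mul_of_nonneg_left hB hM0.le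
      have a2 : (M - 1) * ∑ J ∈ (Finset.univ : Finset (Fin (n + 2))).powersetCard 2, Y V h J ≤
          (M - 1) * (h ^ 2 * X V 2) := mul_le_mul_of_nonneg_left hC (by linarith)
      rw [← mul_assoc, e1] at a1
      rw [hcast] at hA ⊢
      linarith
    have g2 := mul_le_mul_of_nonneg_left g1 hfp.le
    calc ((n + 2).factorial : ℝ) * genus V
        = ((n + 1).factorial : ℝ) * (((n + 2 : ℕ) : ℝ) * genus V) := by
          rw [hf1, hcast]
          ring
      _ ≤ _ := g2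
      _ = T V 0 - (3 / 2 - 9 * ω / 8) * T V 1 + (M - 1) * h ^ 2 * M * T V 2 := by
          rw [hT0, hT1', hT2', hf1]
          have : ((n + 1).factorial : ℝ) * ((M - 1) * h ^ 2 * X V 2) =
              (M - 1) * h ^ 2 * M * ((n.factorial : ℝ) * X V 2) := by
            rw [hf2]
            ring
          rw [mul_add, mul_sub, this]
          ring
      _ = _ := by rw [e2]
  have h2 : 2 * T V 2 ≤ θ * T V 1 := by
    have : (((1 : ℕ) : ℝ) + 1) * T V (1 + 1) ≤ θ * T V 1 := hX2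
    norm_num at this
    linarith
  have h3 : 3 * T V 3 ≤ θ * T V 2 := by
    have : (((2 : ℕ) : ℝ) + 1) * T V (2 + 1) ≤ θ * T V 2 := hX3
    norm_num at this
    linarith
  have hfin := fi2_num M ω θ (T V 1) (T V 2) (T V 3) hM3 hθ0 h2 h3
  have e3 : T V 1 * (1 / 2 - 9 * ω / 8) + T V 2 * (1 - 9 * (M - 1) / (4 * M)) - T V 3 =
      (T V 0 - T V 1 + T V 2 - T V 3) - (T V 0 - (3 / 2 - 9 * ω / 8) * T V 1 +
      9 * (M - 1) / (4 * M) * T V 2) := by ring
  rw [e3] at hfin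
  linarith

end Pool.Agent.Helper70.KN
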