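import Pool.Agent.Helper70.KN.Goals3
import Pool.Agent.Helper70.KN.FI2

/-!
# Project KN (MP_20ee5e_ag): the final inequality, strongest form
-/

open MeasureTheory Set

namespace Pool.Agent.Helper70.KN

theorem fi3_num (E0 T1 T2 T3 mu A B θ g r q : ℝ) (hT2 : 0 ≤ T2) (hr0 : 0 ≤ r) (hr1 : r ≤ 1)
    (h3 : 3 * T3 ≤ θ * T2) (hmu : E0 - T1 + T2 - T3 ≤ mu)
    (h1 : g ≤ E0 - A * T1 + q * T2) (h2 : g ≤ E0 - B * T1) (hq : r * q ≤ 1 - θ / 3) :
    g + (r * A + (1 - r) * B - 1) * T1 ≤ mu := by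
  have a1 : r * g ≤ r * (E0 - A * T1 + q * T2) := mul_le_mul_of_nonneg_left h1 hr0
  have a2 : (1 - r) * g ≤ (1 - r) * (E0 - B * T1) := mul_le_mul_of_nonneg_left h2 (by linarith)
  have a3 : r * q * T2 ≤ (1 - θ / 3) * T2 := mul_le_mul_of_nonneg_right hq hT2
  have a4 : g = r * g + (1 - r) * g := by ring
  have a5 : T3 ≤ θ / 3 * T2 := by linarith
  nlinarith

theorem fi3 (hJE : S_JE) (hAV : S_AV) (hAL : S_AL) (hKO : S_KO) (hXX : S_XX2) (hSE : S_SE)
    (hY1 : S_Y1X) (hY2 : S_Y2) : S_FI3 := by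
  intro N V ω θ h r hN hF hω2 hθ2 hh0 hh2 hr0 hr1 hr
  have hconv := hF.1
  have hω0 : 0 < ω := hF.2.2.1
  have hθ0 : 0 < θ := hF.2.2.2.1
  have hN4 : (4 : ℝ) ≤ N := by exact_mod_cast hN
  have hN0 : (0 : ℝ) < N := by linarith
  have hωh : ω * h ≤ 1 := by nlinarith
  -- decreasing
  have hdec : ∀ k, 1 ≤ k → T V (k + 1) ≤ T V k := by
    intro k hk
    rcases lt_or_ge k N with hkN | hkN
    · have h1 := hXX N V ω θ hF k hk hkN
      have hk1 : (1 : ℝ) ≤ k := by exact_mod_cast hk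
      have h2 : θ ≤ (k : ℝ) + 1 := by linarith
      have h3 := mul_le_mul_of_nonneg_right h2 (T_nonneg V k)
      have h4 : 0 < (k : ℝ) + 1 := by positivity
      exact le_of_mul_le_mul_left (h1.trans h3) h4
    · have : T V (k + 1) = 0 := by
        unfold T X
        rw [Finset.powersetCard_eq_empty.2 (by simp; omega)]
        simp
      rw [this]
      exact T_nonneg V k
  have hmu := hAL N (T V) (T_nonneg V) hdec (by omega)
  rw [← hKO N V] at hmu
  have hX3 := hXX N V ω θ hF 2 (by norm_num) (by omega)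
  have h3 : 3 * T V 3 ≤ θ * T V 2 := by
    have : (((2 : ℕ) : ℝ) + 1) * T V (2 + 1) ≤ θ * T V 2 := hX3
    norm_num at this
    linarith
  -- the first bound
  have hA := hAV N (by omega) V hconv h hh0.le hh2
  have hB : kap N ω h / N * X V 1 ≤ ∑ i, Y V h {i} := by
    rw [X_one, Finset.mul_sum]
    exact Finset.sum_le_sum fun i _ => hY1 N V ω θ hF i h hh0.le hωh
  have hC : ∑ J ∈ (Finset.univ : Finset (Fin N)).powersetCard 2, Y V h J ≤ h ^ 2 * X V 2 := by
    unfold X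
    rw [Finset.mul_sum]
    refine Finset.sum_le_sum fun J hJ => ?_
    have h1 := hY2 N V hconv J h hh0
    rw [(Finset.mem_powersetCard.1 hJ).2] at h1
    exact h1
  -- the second bound
  have hD : (N : ℝ) * genus V ≤ N * W V ∅ - kap N θ (1 / 2) / N * ((N - 1) * X V 1) := by
    have h1 : ∑ i : Fin N, (genus V : ℝ) ≤
        ∑ i : Fin N, (W V ∅ - kap N θ (1 / 2) / N * ∑ j ∈ Finset.univ.erase i, W V {j}) :=
      Finset.sum_le_sum fun i _ => (hJE N V hconv i).trans (hSE N V ω θ hF hθ2 i)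
    rw [Finset.sum_const, Finset.card_univ, Fintype.card_fin, nsmul_eq_mul,
      Finset.sum_sub_distrib, Finset.sum_const, Finset.card_univ, Fintype.card_fin, nsmul_eq_mul,
      ← Finset.mul_sum] at h1
    have h2 : ∑ i : Fin N, ∑ j ∈ Finset.univ.erase i, W V {j} = (N - 1) * X V 1 := by
      have e1 : ∀ i : Fin N, ∑ j ∈ Finset.univ.erase i, W V {j} = X V 1 - W V {i} := by
        intro i
        rw [X_one, ← Finset.add_sum_erase _ _ (Finset.mem_univ i)]
        ring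
      rw [Finset.sum_congr rfl fun i _ => e1 i, Finset.sum_sub_distrib, Finset.sum_const,
        Finset.card_univ, Fintype.card_fin, nsmul_eq_mul, ← X_one]
      ring
    rw [h2] at h1
    exact h1
  -- factorials
  obtain ⟨n, rfl⟩ : ∃ n, N = n + 2 := ⟨N - 2, by omega⟩
  have hcast : ((n + 2 : ℕ) : ℝ) = n + 2 := by push_cast; ring
  have hf1 : ((n + 2).factorial : ℝ) = ((n : ℝ) + 2) * ((n + 1).factorial : ℝ) := by
    rw [Nat.factorial_succ (n + 1)]
    push_cast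
    ring
  have hf2 : ((n + 1).factorial : ℝ) = ((n : ℝ) + 1) * (n.factorial : ℝ) := by
    rw [Nat.factorial_succ n]
    push_cast
    ring
  have hT0 : T V 0 = ((n + 2).factorial : ℝ) * W V ∅ := by
    unfold T
    rw [X_zero]
    rfl
  have hT1' : T V 1 = ((n + 1).factorial : ℝ) * X V 1 := rfl
  have hT2' : T V 2 = (n.factorial : ℝ) * X V 2 := rfl
  have hfp : (0 : ℝ) < ((n + 1).factorial : ℝ) := by exact_mod_cast Nat.factorial_pos _
  rw [hcast] at hA hB hD hr hN0 hN4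
  rw [hcast]
  have hn0 : (0 : ℝ) < n := by linarith
  have g1 : ((n + 2).factorial : ℝ) * genus V ≤ T V 0 -
      (((n : ℝ) + 2 - 1) / (n + 2) * kap (n + 2) ω h) * T V 1 +
      (((n : ℝ) + 1) * n * h ^ 2) * T V 2 := by
    have a1 : ((n : ℝ) + 2 - 1) * (kap (n + 2) ω h / (n + 2) * X V 1) ≤
        ((n : ℝ) + 2 - 1) * ∑ i, Y V h {i} := mul_le_mul_of_nonneg_left hB (by linarith)
    have a2 : ((n : ℝ) + 2 - 2) * ∑ J ∈ (Finset.univ : Finset (Fin (n + 2))).powersetCard 2, Y V h J ≤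
        ((n : ℝ) + 2 - 2) * (h ^ 2 * X V 2) := mul_le_mul_of_nonneg_left hC (by linarith)
    have a3 : ((n : ℝ) + 2) * genus V ≤ ((n : ℝ) + 2) * W V ∅ -
        ((n : ℝ) + 2 - 1) * (kap (n + 2) ω h / (n + 2) * X V 1) +
        ((n : ℝ) + 2 - 2) * (h ^ 2 * X V 2) := by linarith
    have a4 := mul_le_mul_of_nonneg_left a3 hfp.le
    rw [hT0, hT1', hT2', hf1]
    rw [hf2] at a4 ⊢
    have e1 : ((n : ℝ) + 2) * (((n : ℝ) + 1) * (n.factorial : ℝ)) * genus V =
        ((n : ℝ) + 1) * (n.factorial : ℝ) * (((n : ℝ) + 2) * genus V) := by ring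
    rw [e1]
    refine a4.trans (le_of_eq ?_)
    ring
  have g2 : ((n + 2).factorial : ℝ) * genus V ≤ T V 0 -
      (((n : ℝ) + 2 - 1) / (n + 2) * kap (n + 2) θ (1 / 2)) * T V 1 := by
    have a4 := mul_le_mul_of_nonneg_left hD hfp.le
    rw [hT0, hT1', hf1]
    have e1 : ((n : ℝ) + 2) * ((n + 1).factorial : ℝ) * genus V =
        ((n + 1).factorial : ℝ) * (((n : ℝ) + 2) * genus V) := by ring
    rw [e1]
    refine a4.trans (le_of_eq ?_)
    ring
  have hq : r * (((n : ℝ) + 1) * n * h ^ 2) ≤ 1 - θ / 3 := by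
    refine le_trans (le_of_eq ?_) hr
    ring
  have hfin := fi3_num (T V 0) (T V 1) (T V 2) (T V 3) (newtonNumber V)
    (((n : ℝ) + 2 - 1) / (n + 2) * kap (n + 2) ω h)
    (((n : ℝ) + 2 - 1) / (n + 2) * kap (n + 2) θ (1 / 2)) θ
    (((n + 2).factorial : ℝ) * genus V) r (((n : ℝ) + 1) * n * h ^ 2) (T_nonneg V 2) hr0 hr1 h3
    hmu g1 g2 hq
  refine le_trans (le_of_eq ?_) hfin
  ring

end Pool.Agent.Helper70.KN
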