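import Pool.Agent.Helper70.KN.Goals4
import Pool.Agent.Helper70.KN.Asm

/-!
# Project KN (MP_20ee5e_ag): the final inequality of THEOREM D
-/

open MeasureTheory Set

namespace Pool.Agent.Helper70.KN

theorem fi4_num (E0 T1 T2 T3 mu A η g q : ℝ) (hT1 : 0 < T1) (hT2 : 0 ≤ T2)
    (h3 : 3 * T3 ≤ η * T2) (hmu : E0 - T1 + T2 - T3 ≤ mu)
    (h1 : g ≤ E0 - A * T1 + q * T2) (hq : q ≤ 1 - η / 3) (hA : 1 < A) :
    g < mu := by
  have a1 : q * T2 ≤ (1 - η / 3) * T2 := mul_le_mul_of_nonneg_right hq hT2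
  have a2 : 0 < (A - 1) * T1 := mul_pos (by linarith) hT1
  have a3 : T3 ≤ η / 3 * T2 := by linarith
  linarith

theorem fi4 (hSE : S_SE4) (hSU : S_SU4) (hXX : S_XX4) : S_FI4 := by
  intro N V L ω η hN hC hη0 hη3 hs1 hs2 hnum
  obtain ⟨α, β, hβ, hkp, hq, hA⟩ := hnum
  have hconv := hC.1
  have h0V := hC.2.1
  have hnn : ∀ w ∈ L, ∀ j, 0 ≤ w j := fun w hw j => (hC.2.2.2.2.2.1 w hw j).1
  have hN4 : (4 : ℝ) ≤ N := by exact_mod_cast hN
  have hN0 : (0 : ℝ) < N := by linarith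
  -- sums over complements of larger sets
  have hk2 : ∀ k, 2 ≤ k → ∀ w ∈ L, ∀ J : Finset (Fin N), J.card = k → ∑ j ∈ Jᶜ, w j ≤ η := by
    intro k hk w hw J hJ
    obtain ⟨J', hJ', hc⟩ := Finset.exists_subset_card_eq (s := J) (n := 2) (by omega)
    refine le_trans ?_ (hs2 w hw J' hc)
    exact Finset.sum_le_sum_of_subset_of_nonneg (Finset.compl_subset_compl.2 hJ')
      (fun j _ _ => hnn w hw j)
  have hk1 : ∀ w ∈ L, ∀ J : Finset (Fin N), J.card = 1 → ∑ j ∈ Jᶜ, w j ≤ 2 := by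
    intro w hw J hJ
    obtain ⟨i, rfl⟩ := Finset.card_eq_one.1 hJ
    have : ({i} : Finset (Fin N))ᶜ = Finset.univ.erase i := by
      ext k
      simp
    rw [this]
    exact hs1 w hw i
  -- decreasing
  have hdec : ∀ k, 1 ≤ k → T V (k + 1) ≤ T V k := by
    intro k hk
    rcases lt_or_ge k N with hkN | hkN
    · rcases Nat.eq_or_lt_of_le hk with h1 | h1
      · subst h1
        have h2 := hXX N V L ω 2 hC (by norm_num) 1 (by omega) hk1
        norm_num at h2
        exact h2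
      · have h2 := hXX N V L ω η hC hη0 k hkN (hk2 k h1)
        have hk1 : (2 : ℝ) ≤ k := by exact_mod_cast h1
        have h3 : η ≤ (k : ℝ) + 1 := by linarith
        have h4 := mul_le_mul_of_nonneg_right h3 (T_nonneg V k)
        have h5 : 0 < (k : ℝ) + 1 := by positivity
        exact le_of_mul_le_mul_left (h2.trans h4) h5
    · have : T V (k + 1) = 0 := by
        unfold T X
        rw [Finset.powersetCard_eq_empty.2 (by simp; omega)]
        simp
      rw [this]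
      exact T_nonneg V k
  have hmu := pAL N (T V) (T_nonneg V) hdec (by omega)
  rw [← pKO N V] at hmu
  have hX3 := hXX N V L ω η hC hη0 2 (by omega) (hk2 2 le_rfl)
  have h3 : 3 * T V 3 ≤ η * T V 2 := by
    have : (((2 : ℕ) : ℝ) + 1) * T V (2 + 1) ≤ η * T V 2 := hX3
    norm_num at this
    linarith
  -- the sum over `i`
  have hD : (N : ℝ) * genus V ≤ N * W V ∅ - ((α - β * ω) * ((N : ℝ) - 1) * X V 1 -
      β / ((N : ℝ) - 1) * (2 * ((N : ℝ) - 2)) * X V 2) / N := by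
    have h1 : ∑ i : Fin N, (genus V : ℝ) ≤
        ∑ i : Fin N, (W V ∅ - ∑ j ∈ Finset.univ.erase i, ((α - β * ω) * W V {j} -
          β / ((N : ℝ) - 1) * ∑ k ∈ (Finset.univ.erase i).erase j, W V {j, k}) / N) :=
      Finset.sum_le_sum fun i _ => (pJE N V hconv i).trans (hSE N V L ω α β hC hβ hkp i)
    rw [Finset.sum_const, Finset.card_univ, Fintype.card_fin, nsmul_eq_mul,
      Finset.sum_sub_distrib, Finset.sum_const, Finset.card_univ, Fintype.card_fin, nsmul_eq_mul,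
      Finset.sum_congr rfl fun i _ => (Finset.sum_div _ _ _).symm, ← Finset.sum_div,
      hSU N V (α - β * ω) (β / ((N : ℝ) - 1))] at h1
    exact h1
  -- factorials
  obtain ⟨n, rfl⟩ : ∃ n, N = n + 2 := ⟨N - 2, by omega⟩
  have hcast : ((n + 2 : ℕ) : ℝ) = n + 2 := by push_cast; ring
  have hf1 : ((n + 2).factorial : ℝ) = ((n : ℝ) + 2) * ((n + 1).factorial : ℝ) := by
    rw [Nat.factorial_succ (n + 1)]
    push_cast
    ring
  have hf2 : ((n + 1).factorial : ℝ) = ((n : ℝ) + 1) * (n.factorial : ℝ) := by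
    rw [Nat.factorial_succ n]
    push_cast
    ring
  have hT0 : T V 0 = ((n + 2).factorial : ℝ) * W V ∅ := by
    unfold T
    rw [X_zero]
    rfl
  have hT1' : T V 1 = ((n + 1).factorial : ℝ) * X V 1 := rfl
  have hT2' : T V 2 = (n.factorial : ℝ) * X V 2 := rfl
  have hfp : (0 : ℝ) < ((n + 1).factorial : ℝ) := by exact_mod_cast Nat.factorial_pos _
  rw [hcast] at hD hN0 hN4 hq hA
  have hn0 : (0 : ℝ) < n := by linarith
  have g2 : ((n + 2).factorial : ℝ) * genus V ≤ T V 0 -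
      (((n : ℝ) + 2 - 1) / (n + 2) * (α - β * ω)) * T V 1 +
      (2 * β * ((n : ℝ) + 2 - 2) / (n + 2)) * T V 2 := by
    have a4 := mul_le_mul_of_nonneg_left hD hfp.le
    rw [hT0, hT1', hT2', hf1]
    have e1 : ((n : ℝ) + 2) * ((n + 1).factorial : ℝ) * genus V =
        ((n + 1).factorial : ℝ) * (((n : ℝ) + 2) * genus V) := by ring
    rw [e1]
    refine a4.trans (le_of_eq ?_)
    rw [hf2]
    have e2 : (n : ℝ) + 2 - 1 = n + 1 := by ring
    rw [e2]
    have e3 : (n : ℝ) + 1 ≠ 0 := by positivity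
    have e4 : (n : ℝ) + 2 ≠ 0 := by positivity
    field_simp
    ring
  exact fi4_num (T V 0) (T V 1) (T V 2) (T V 3) (newtonNumber V)
    (((n : ℝ) + 2 - 1) / (n + 2) * (α - β * ω)) η (((n + 2).factorial : ℝ) * genus V)
    (2 * β * ((n : ℝ) + 2 - 2) / (n + 2)) (T_one_pos hN V hconv h0V) (T_nonneg V 2) h3 hmu g2 hq hA

end Pool.Agent.Helper70.KN
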