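import Pool.Agent.Helper70.KN.Asm4

/-!
# Project KN (MP_20ee5e_ag): the general upper bound of the genus, for reuse
-/

open MeasureTheory Set

namespace Pool.Agent.Helper70.KN

variable {N : ℕ}

/-- The general upper bound: `N! p_g ≤ T_0 - ((N-1)/N)(α - β ω) T_1 + (2 β (N-2)/N) T_2`. -/
theorem genus_le (hN : 3 ≤ N) (V : Finset (Fin N → ℕ)) (L : Set (Fin N → ℝ)) (ω α β : ℝ)
    (hC : Cut V L ω) (hβ : 0 ≤ β) (hkp : ∀ σ, 0 ≤ σ → α - β * σ ≤ kp N σ) :
    (N.factorial : ℝ) * genus V ≤ T V 0 - (((N : ℝ) - 1) / N * (α - β * ω)) * T V 1 +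
      (2 * β * ((N : ℝ) - 2) / N) * T V 2 := by
  have hconv := hC.1
  have hD : (N : ℝ) * genus V ≤ N * W V ∅ - ((α - β * ω) * ((N : ℝ) - 1) * X V 1 -
      β / ((N : ℝ) - 1) * (2 * ((N : ℝ) - 2)) * X V 2) / N := by
    have h1 : ∑ i : Fin N, (genus V : ℝ) ≤
        ∑ i : Fin N, (W V ∅ - ∑ j ∈ Finset.univ.erase i, ((α - β * ω) * W V {j} -
          β / ((N : ℝ) - 1) * ∑ k ∈ (Finset.univ.erase i).erase j, W V {j, k}) / N) :=
      Finset.sum_le_sum fun i _ => (pJE N V hconv i).trans (pSE4 N V L ω α β hC hβ hkp i)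
    rw [Finset.sum_const, Finset.card_univ, Fintype.card_fin, nsmul_eq_mul,
      Finset.sum_sub_distrib, Finset.sum_const, Finset.card_univ, Fintype.card_fin, nsmul_eq_mul,
      Finset.sum_congr rfl fun i _ => (Finset.sum_div _ _ _).symm, ← Finset.sum_div,
      pSU4 N V (α - β * ω) (β / ((N : ℝ) - 1))] at h1
    exact h1
  obtain ⟨n, rfl⟩ : ∃ n, N = n + 2 := ⟨N - 2, by omega⟩
  have hcast : ((n + 2 : ℕ) : ℝ) = n + 2 := by push_cast; ring
  have hf1 : ((n + 2).factorial : ℝ) = ((n : ℝ) + 2) * ((n + 1).factorial : ℝ) := by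
    rw [Nat.factorial_succ (n + 1)]
    push_cast
    ring
  have hf2 : ((n + 1).factorial : ℝ) = ((n : ℝ) + 1) * (n.factorial : ℝ) := by
    rw [Nat.factorial_succ n]
    push_cast
    ring
  have hT0 : T V 0 = ((n + 2).factorial : ℝ) * W V ∅ := by
    unfold T
    rw [X_zero]
    rfl
  have hT1' : T V 1 = ((n + 1).factorial : ℝ) * X V 1 := rfl
  have hT2' : T V 2 = (n.factorial : ℝ) * X V 2 := rfl
  have hfp : (0 : ℝ) < ((n + 1).factorial : ℝ) := by exact_mod_cast Nat.factorial_pos _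
  rw [hcast] at hD ⊢
  have a4 := mul_le_mul_of_nonneg_left hD hfp.le
  rw [hT0, hT1', hT2', hf1]
  have e1 : ((n : ℝ) + 2) * ((n + 1).factorial : ℝ) * genus V =
      ((n + 1).factorial : ℝ) * (((n : ℝ) + 2) * genus V) := by ring
  rw [e1]
  refine a4.trans (le_of_eq ?_)
  rw [hf2]
  have e2 : (n : ℝ) + 2 - 1 = n + 1 := by ring
  rw [e2]
  have e3 : (n : ℝ) + 1 ≠ 0 := by positivity
  have e4 : (n : ℝ) + 2 ≠ 0 := by positivity
  field_simp
  ring

end Pool.Agent.Helper70.KN
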