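import Pool.Agent.Helper70.KN.Goals

/-!
# Project KN (MP_20ee5e_ag), second part: conditions on the weights of the facets instead of the vertices

THEOREM (helper70). `N ≥ 4`. If the Newton polyhedron is `{x ≥ 0 | ⟨w, x⟩ ≥ 1 for all w ∈ L}` with `0 ≤ w_j ≤ ω` and
`∑_{j ≠ i} w_j ≤ θ` (all `w ∈ L`, all `i`), and `27 (ω - θ/(N-1)) + 15 θ + 4 θ² ≤ 12`, then `N! genus V + s · T V 1 ≤ newtonNumber V`,
`24 s = 12 - 27 (ω - θ/(N-1)) - 15 θ - 4 θ²`. Thick diagrams: `ω = 1/c`, `θ = (N-1)/c` (packet DU).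
Every packet is a `Prop` with its proof in the docstring. Prove `theorem t : S_XX` (goals listed as USES, from this file or from
Goals.lean, are arguments `(h : S_YY)`). If a statement is false as it stands, mail helper70 at once.
-/

open MeasureTheory Set

namespace Pool.Agent.Helper70.KN

variable {N : ℕ}

/-- The Newton polyhedron is cut out of the orthant by inequalities `⟨w, x⟩ ≥ 1` with `0 ≤ w_j ≤ ω` and all sums of `N - 1` of
the coordinates of `w` at most `θ`. -/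
def Flat (V : Finset (Fin N → ℕ)) (ω θ : ℝ) : Prop :=
  Convenient V ∧ (0 : Fin N → ℕ) ∉ V ∧ 0 < ω ∧ 0 < θ ∧ ∃ L : Set (Fin N → ℝ),
    (∀ w ∈ L, (∀ j, 0 ≤ w j ∧ w j ≤ ω) ∧ ∀ i, ∑ j ∈ Finset.univ.erase i, w j ≤ θ) ∧
    newton V = {x | 0 ≤ x ∧ ∀ w ∈ L, 1 ≤ ∑ j, w j * x j}

/-- As `Thick`, with the property of goal TH instead of the condition on the vertices. -/
def Wide (V : Finset (Fin N → ℕ)) (c : ℝ) : Prop :=
  Convenient V ∧ 0 < c ∧ (0 : Fin N → ℕ) ∉ V ∧ ∀ (x : Fin N → ℝ) (i : Fin N), x ∈ newton V → 0 ≤ x i → x i < c →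
    (fun k => if k = i then (0 : ℝ) else x k / (1 - x i / c)) ∈ newton V

/-- WD. PROOF. `c = 1/ω`, `y` the new point, `w ∈ L`: `⟨w, y⟩ = (⟨w, x⟩ - w_i x_i)/(1 - ω x_i) ≥ (1 - ω x_i)/(1 - ω x_i) = 1`, and `y ≥ 0` (points of `newton V` are `≥ 0`). -/
def S_WD : Prop := ∀ (N : ℕ) (V : Finset (Fin N → ℕ)) (ω θ : ℝ), Flat V ω θ → Wide V (1 / ω)

/-- SLW. As SL, for `Wide` (only `J = ∅`). USES: MF, SI, SC. PROOF. Copy of Helper67/KN/SL.lean, `hTH` replaced by the last component of `Wide`. -/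
def S_SLW : Prop := ∀ (N : ℕ) (V : Finset (Fin N → ℕ)) (c : ℝ), Wide V c →
  ∀ (i : Fin N) (s : ℝ), 0 ≤ s → s ≤ c →
    (∫ t in (0 : ℝ)..s, (1 - t / c) ^ (N - 1)) * W V {i} ≤ (volume (cyl V ∅ ∩ {x | x i < s})).toReal

/-- Y1W. USES: SLW. PROOF. As Helper5/KN/Y1.lean. -/
def S_Y1W : Prop := ∀ (N : ℕ) (V : Finset (Fin N → ℕ)) (c : ℝ), Wide V c →
  ∀ (i : Fin N) (h : ℝ), 0 ≤ h → h ≤ c → (h - ((N : ℝ) - 1) * h ^ 2 / (2 * c)) * W V {i} ≤ Y V h {i}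

/-- TB. PROOF. `y` the new point, `y ≥ 0`. For `w ∈ L`: `∑_{k ∉ J} w_k ≤ θ` as `J` is not empty (the sum over `k ≠ i`, `i ∈ J`, of nonnegative numbers is `≤ θ`), so `⟨w, y⟩ = (⟨w, x⟩ - t ∑_{k ∉ J} w_k)/(1 - θ t) ≥ 1` (`x = 0` on `J`). -/
def S_TB : Prop := ∀ (N : ℕ) (V : Finset (Fin N → ℕ)) (ω θ : ℝ), Flat V ω θ →
  ∀ (J : Finset (Fin N)) (x : Fin N → ℝ) (t : ℝ), J.Nonempty → x ∈ newton V → 0 ≤ t → t * θ < 1 →
    (∀ k ∈ J, x k = 0) → (∀ k, k ∉ J → t ≤ x k) →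
    (fun k => if k ∈ J then (0 : ℝ) else (x k - t) / (1 - θ * t)) ∈ newton V

/-- SH. Shears preserve the volume. PROOF. Induction on the finite set of `k` with `k ∉ J`, `k ≠ j` (transvections, `Real.volume_preserving_transvectionStruct`), or determinant of a triangular matrix, or Fubini (for fixed `x j` it is a translation of the other coordinates). -/
def S_SH : Prop := ∀ (N : ℕ) (S : Set (Fin N → ℝ)) (J : Finset (Fin N)) (j : Fin N), MeasurableSet S →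
  volume {x : Fin N → ℝ | (fun k => if k ∈ J ∨ k = j then x k else x k + x j) ∈ S} = volume S

/-- SHS. Slices in the diagonal direction. USES: MF, SI, SC, TB, SH.
PROOF. `R = {x ∈ cyl V J | ∀ k ∉ J, k ≠ j → x j < x k}` (measurable, finite volume), `P` its preimage under the shear `Φ` of SH: `volume P = volume R`, `P = {x | Φ x ∈ cyl V J ∧ ∀ k ∉ J, k ≠ j → 0 < x k}`. For `0 < t`, `t θ < 1`, `λ = 1 - θ t`, let `P_t = {x | 0 ≤ x j ∧ x j < 1 ∧ update x j t ∈ P}`, `D_k = 1` for `k ∈ insert j J`, `λ` otherwise (product `λ^(N - |J| - 1)`). Claim: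
`cyl V (insert j J) ∩ {x | ∀ k ∉ J, k ≠ j → 0 < x k} ⊆ {x | D x ∈ P_t}`: put `y = update (D x) j t`; `Φ y` is `x_k < 1` on `J`, `t` at `j`, `λ x_k + t` at the other `k`, all `≥ 0`; `zr J (Φ y)` is not in `newton V`, otherwise TB (with this `t`) gives the point `0` on `J`, `(t - t)/λ = 0` at `j`, `x_k` at the others, that is `zr (insert j J) x`, in `newton V`. The set on the left has volume that of
`cyl V (insert j J)` (hyperplanes are null sets). So (SC) `volume P_t ≥ λ^(N-|J|-1) volume (cyl V (insert j J))`; integrate over `t ∈ (0, 1/θ)` (SI): `∫ (1 - θ t)^(N-|J|-1) dt = 1/(θ (N - |J|))`. (Model: Helper67/KN/SL.lean.) -/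
def S_SHS : Prop := ∀ (N : ℕ) (V : Finset (Fin N → ℕ)) (ω θ : ℝ), Flat V ω θ →
  ∀ (J : Finset (Fin N)) (j : Fin N), J.Nonempty → j ∉ J →
    W V (insert j J) ≤ θ * ((N : ℝ) - J.card) *
      (volume {x | x ∈ cyl V J ∧ ∀ k, k ∉ J → k ≠ j → x j < x k}).toReal

/-- CC2. USES: MF, SHS. PROOF. The sets in SHS for different `j ∉ J` are disjoint measurable subsets of `cyl V J`; add SHS over `j ∉ J`. -/
def S_CC2 : Prop := ∀ (N : ℕ) (V : Finset (Fin N → ℕ)) (ω θ : ℝ), Flat V ω θ →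
  ∀ J : Finset (Fin N), J.Nonempty → ∑ j ∈ Jᶜ, W V (insert j J) ≤ θ * ((N : ℝ) - J.card) * W V J

/-- XX2. USES: CC2. PROOF. As Helper32/KN/XX.lean: `(k+1) X_(k+1) = ∑_{|J|=k} ∑_{j ∉ J} W V (insert j J) ≤ θ (N - k) X_k`; multiply by `(N-k-1)!`. -/
def S_XX2 : Prop := ∀ (N : ℕ) (V : Finset (Fin N → ℕ)) (ω θ : ℝ), Flat V ω θ → ∀ k : ℕ, 1 ≤ k → k < N →
  ((k : ℝ) + 1) * T V (k + 1) ≤ θ * T V k

/-- PO2. Positivity. USES: MF. PROOF. Every point `z` of `newton V` has `1 ≤ ∑ z_j` (each `v ∈ V` is a nonzero vector of natural numbers; half space). So `cyl V J` contains the open box `(0, 1/(N+1))^N`, of positive volume (Helper2/KN/PO.lean is similar). -/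
def S_PO2 : Prop := ∀ (N : ℕ) (V : Finset (Fin N → ℕ)), Convenient V → (0 : Fin N → ℕ) ∉ V →
  ∀ J : Finset (Fin N), 0 < W V J

/-- DU. Duality. USES: CL.
PROOF. `L = {w | (∀ j, 0 ≤ w_j ≤ 1/c) ∧ ∀ v ∈ V, 1 ≤ ⟨w, v⟩}`. `⊆` is clear (`⟨w, ·⟩ ≥ 1` on the convex hull, `w ≥ 0`). `⊇`: let `x ≥ 0`, `x ∉ newton V`; separate (`geometric_hahn_banach_point_closed`): a linear functional `f` with coordinates `f_j` and `u` with `f x < u < f b` for all `b ∈ newton V`. `f_j ≥ 0` (`b + s e_j ∈ newton V` for all `s ≥ 0`), `u > f x ≥ 0`. `w = f/u`: `⟨w, x⟩ < 1 < ⟨w, v⟩` for `v ∈ V`.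
`w'_j = min w_j (1/c)`: `⟨w', x⟩ < 1`, and for `v ∈ V` either some `j` has `v_j ≠ 0`, `w_j > 1/c`, then `⟨w', v⟩ ≥ v_j / c ≥ 1`, or `⟨w', v⟩ = ⟨w, v⟩ > 1`. So `w' ∈ L`. Contradiction. -/
def S_DU : Prop := ∀ (N : ℕ) (V : Finset (Fin N → ℕ)) (c : ℝ), 2 ≤ N → Thick V c → Flat V (1 / c) (((N : ℝ) - 1) / c)

/-- FI2 (helper70). -/
def S_FI2 : Prop := ∀ (N : ℕ) (V : Finset (Fin N → ℕ)) (ω θ : ℝ), 4 ≤ N → Flat V ω θ →
  27 * (ω - θ / ((N : ℝ) - 1)) + 15 * θ + 4 * θ ^ 2 ≤ 12 →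
  (N.factorial : ℝ) * genus V + (12 - (27 * (ω - θ / ((N : ℝ) - 1)) + 15 * θ + 4 * θ ^ 2)) / 24 * T V 1 ≤
    newtonNumber V

end Pool.Agent.Helper70.KN
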