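import Pool.Agent.Helper70.KN.Goals3

/-!
# Project KN (MP_20ee5e_ag), fourth part: THEOREM D

THEOREM D (helper70). `N = n + 1 ≥ 4`, `Cut V L ω`: `N! genus V < newtonNumber V` if all weights are `≤ 4/(3n)` (`n ≥ 4`), `≤ 2/5`
(`n = 3`), and if all weights are `≤ 2/5` and all sums of `n` weights `≤ 1`. In particular if `3 n ≤ 4 a` for all nonzero
coordinates `a` of all `v ∈ V`. Rules as in Goals.lean: prove `theorem t : S_XX` (USES are arguments). If a statement is false as it stands,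
mail helper70 at once.
-/

open MeasureTheory Set

namespace Pool.Agent.Helper70.KN

variable {N : ℕ}

/-- `⟨w, x⟩`. -/
def dt (w x : Fin N → ℝ) : ℝ := ∑ j, w j * x j

/-- The Newton polyhedron is cut out of the orthant by `⟨w, x⟩ ≥ 1`, `w ∈ L`, `L` compact, `0 ≤ w_j ≤ ω`. -/
def Cut (V : Finset (Fin N → ℕ)) (L : Set (Fin N → ℝ)) (ω : ℝ) : Prop :=
  Convenient V ∧ (0 : Fin N → ℕ) ∉ V ∧ 0 < ω ∧ IsCompact L ∧ L.Nonempty ∧ (∀ w ∈ L, ∀ j, 0 ≤ w j ∧ w j ≤ ω) ∧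
    newton V = {x | 0 ≤ x ∧ ∀ w ∈ L, 1 ≤ dt w x}

/-- The support function `ρ(x) = min_{w ∈ L} ⟨w, x⟩`. -/
noncomputable def rho (L : Set (Fin N → ℝ)) (x : Fin N → ℝ) : ℝ := sInf ((fun w => dt w x) '' L)

/-- The largest `k`-th coordinate of the `w ∈ L` which are active at `x`. -/
noncomputable def dm (L : Set (Fin N → ℝ)) (k : Fin N) (x : Fin N → ℝ) : ℝ :=
  sSup {a | ∃ w ∈ L, dt w x = rho L x ∧ w k = a}

/-- RH. PROOF. `w ↦ ⟨w, x⟩` is continuous, `L` compact and nonempty: the infimum is attained. Continuity: `|⟨w, x⟩ - ⟨w, y⟩| ≤ ω ∑ |x_j - y_j|` for `w ∈ L`, so the same for `rho`. -/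
def S_RH : Prop := ∀ (N : ℕ) (V : Finset (Fin N → ℕ)) (L : Set (Fin N → ℝ)) (ω : ℝ), Cut V L ω →
  (∀ x, ∃ w ∈ L, dt w x = rho L x) ∧ (∀ x, ∀ w ∈ L, rho L x ≤ dt w x) ∧
  (∀ x, 0 ≤ x → (x ∈ newton V ↔ 1 ≤ rho L x)) ∧ (∀ x (c : ℝ), 0 ≤ c → rho L (fun j => c * x j) = c * rho L x) ∧
  (∀ x y, x ≤ y → rho L x ≤ rho L y) ∧ (∀ x, 0 ≤ x → 0 ≤ rho L x) ∧ Continuous (rho L)

/-- DM. USES: RH.
PROOF. The active `w` form a nonempty compact set `A_x` (RH), so the supremum is attained. Measurable: `{x | a ≤ dm L k x}` is the projection to `x` of the closed set `{(x, w) | w ∈ L, ⟨w, x⟩ = ρ(x), a ≤ w_k}`, `L` compact, so closed (or sequences), `UpperSemicontinuous.measurable`. Scaling: `A_(cx) = A_x` for `c > 0`. Last: with any active `w`, `ρ(x + v) ≤ ⟨w, x⟩ + ∑ w_k v_k`. -/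
def S_DM : Prop := ∀ (N : ℕ) (V : Finset (Fin N → ℕ)) (L : Set (Fin N → ℝ)) (ω : ℝ), Cut V L ω → ∀ k : Fin N,
  (∀ x, ∃ w ∈ L, dt w x = rho L x ∧ w k = dm L k x) ∧ (∀ x, ∀ w ∈ L, dt w x = rho L x → w k ≤ dm L k x) ∧
  (∀ x, 0 ≤ dm L k x ∧ dm L k x ≤ ω) ∧ Measurable (dm L k) ∧
  (∀ x (c : ℝ), 0 < c → dm L k (fun j => c * x j) = dm L k x) ∧
  (∀ x v : Fin N → ℝ, 0 ≤ v → rho L (fun j => x j + v j) ≤ rho L x + ∑ j, dm L j x * v j)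

/-- SG. One-dimensional lemma.
PROOF. Adding the inequalities for `(s, s')` and `(s', s)`: `b` is antitone on `[0, S]`. Uniform partition `s_i = i S/m`: `b(s_(i+1)) (s_(i+1) - s_i) ≤ φ(s_(i+1)) - φ(s_i)`, and the integral of `b` over `[s_i, s_(i+1)]` is `≤ b(s_i) S/m`. So the integral is `≤ φ(S) - φ(0) + (b(0) - b(S)) S/m`; `m → ∞`. -/
def S_SG : Prop := ∀ (φ b : ℝ → ℝ) (S : ℝ), 0 ≤ S →
  (∀ s ∈ Icc 0 S, ∀ s' ∈ Icc 0 S, φ s' ≤ φ s + b s * (s' - s)) →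
    IntervalIntegrable b volume 0 S ∧ ∫ s in (0 : ℝ)..S, b s ≤ φ S - φ 0

/-- FBF. Fubini, cylinder form, for functions. PROOF. As FB (Helper72/KN/FB.lean) with `lintegral` instead of the volume. -/
def S_FBF : Prop := ∀ (N : ℕ) (f : (Fin N → ℝ) → ENNReal) (i : Fin N), Measurable f →
  ∫⁻ x, f x = ∫⁻ x in {x : Fin N → ℝ | 0 ≤ x i ∧ x i < 1}, ∫⁻ t : ℝ, f (Function.update x i t)

/-- LC. USES: MF, SC, RH.
PROOF. `m = N - |J|`. `{x ∈ cyl V J | ρ(zr J x) < λ}` (`0 < λ ≤ 1`) is `{x | D⁻¹ x ∈ cyl V J}` with `D_k = 1` on `J`, `λ` outside (`ρ` is homogeneous, `zr J x ∉ newton V ↔ ρ(zr J x) < 1` for `x ≥ 0`): volume `λ^m W V J` (SC). Layer cake: `∫_{cyl} (1 - ρ) = ∫_0^1 volume {1 - ρ > u} du = ∫_0^1 (1-u)^m du W V J`. -/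
def S_LC : Prop := ∀ (N : ℕ) (V : Finset (Fin N → ℕ)) (L : Set (Fin N → ℝ)) (ω : ℝ), Cut V L ω →
  ∀ J : Finset (Fin N), ∫⁻ x in cyl V J, ENNReal.ofReal (1 - rho L (zr J x)) =
    ENNReal.ofReal (W V J / ((N : ℝ) - J.card + 1))

/-- FX. Flux. USES: MF, BD, RH, DM, SG, FBF, LC.
PROOF. `f(x) = 1_{cyl V {j}}(x) dm L k (zr {j} x)`, FBF with `i = k`: for `x` with `0 ≤ x k < 1` the inner integral is over `t ≥ 0` with `update x k t ∈ cyl V {j}`, i.e. (if `0 ≤ x_j < 1` and the other coordinates are `≥ 0`, otherwise it is zero) `φ(t) < 1`, `φ(t) = ρ(zr {j} (update x k t))`, continuous, monotone, `φ(t) → ≥ 1` (BD), so this is `[0, S)`, empty if `φ(0) ≥ 1`. `b(t) = dm L k (zr {j} (update x k t))` satisfies `φ(t') ≤ φ(t) + b(t)(t' - t)`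
(take `w` active with `w_k = b(t)`, DM). By SG the integral of `b` over `[0, S']`, `S' < S`, is `≤ φ(S') - φ(0) ≤ 1 - φ(0)`, `φ(0) = ρ(zr {j,k} x)`. Hence the total is at most the integral of `1 - ρ(zr {j,k} x)` over `cyl V {j,k}`, LC. -/
def S_FX : Prop := ∀ (N : ℕ) (V : Finset (Fin N → ℕ)) (L : Set (Fin N → ℝ)) (ω : ℝ), Cut V L ω →
  ∀ j k : Fin N, j ≠ k → ∫⁻ x in cyl V {j}, ENNReal.ofReal (dm L k (zr {j} x)) ≤
    ENNReal.ofReal (W V {j, k} / ((N : ℝ) - 1))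

/-- HO. Homogeneous functions. USES: MF, SC, RH.
PROOF. For `K ≥ 1` let `q_K = ⌊K q⌋ / K ≤ q`. `{x | 0 ≤ x, x j < 1, ρ(zr {j} x) < q x}` contains the disjoint sets `{q_K = l/K, ρ(zr {j} x) < l/K}`, `1 ≤ l ≤ K`, of volume `(l/K)^(N-1) volume (cyl V {j} ∩ {q_K = l/K})` (SC with `D_j = 1`, `D_k = l/K`; `q` is invariant; `0 ≤ x, x j < 1, ρ(zr {j} x) < 1` is `cyl V {j}`). The sum is the integral of `q_K^(N-1)` over `cyl V {j}`, which is at least the integral of `q^(N-1)` minus `(N/K) W V {j}`. -/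
def S_HO : Prop := ∀ (N : ℕ), 2 ≤ N → ∀ (V : Finset (Fin N → ℕ)) (L : Set (Fin N → ℝ)) (ω : ℝ), Cut V L ω →
  ∀ (j : Fin N) (q : (Fin N → ℝ) → ℝ), Measurable q → (∀ x, 0 ≤ q x ∧ q x ≤ 1) →
    (∀ x (c : ℝ), 0 < c → q (fun k => if k = j then x k else c * x k) = q x) →
    ∫⁻ x in cyl V {j}, ENNReal.ofReal (q x ^ (N - 1)) ≤
      volume {x : Fin N → ℝ | 0 ≤ x ∧ x j < 1 ∧ rho L (zr {j} x) < q x}

/-- The slope in the direction `∑_{k ≠ i} e_k` at the point `zr {j} x`. -/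
noncomputable def sl (L : Set (Fin N → ℝ)) (ω : ℝ) (i j : Fin N) (x : Fin N → ℝ) : ℝ :=
  ω + ∑ k ∈ (Finset.univ.erase i).erase j, dm L k (zr {j} x)

/-- SLD. One slice. USES: RH, DM, HO.
PROOF. `q x = max 0 (1 - s σ(x))`, `σ = sl L ω i j` (measurable, `≥ 0`, unchanged if the coordinates other than `j` are multiplied by `c > 0`, as `zr {j}` of the new point is `c` times the old one). HO. If `0 ≤ x`, `x j < 1`, `ρ(zr {j} x) < q x` then `ρ(zr {j} x) + s σ(x) < 1`; the point `y` with `y_j = s`, `y_i = x_i`, `y_k = x_k + s` has (DM, last part, `v_j = s`, `v_k = s` for `k ≠ i, j`, `v_i = 0`; `dm L j ≤ ω`) `ρ(y) ≤ ρ(zr {j} x) + s σ(x) < 1`, so it is not in `newton V`. -/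
def S_SLD : Prop := ∀ (N : ℕ) (V : Finset (Fin N → ℕ)) (L : Set (Fin N → ℝ)) (ω : ℝ), Cut V L ω →
  ∀ (i j : Fin N) (s : ℝ), j ≠ i → 0 ≤ s →
    ∫⁻ x in cyl V {j}, ENNReal.ofReal ((max 0 (1 - s * sl L ω i j x)) ^ (N - 1)) ≤
      volume {x : Fin N → ℝ | 0 ≤ x ∧ x j < 1 ∧
        (fun k => if k = j then s else if k = i then x k else x k + s) ∉ newton V}

/-- RV. The volume of `R_ij`, integral form. USES: MF, SI, SH, SLD.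
PROOF. `R` the set on the right, `P` its preimage under the shear `Φ` of SH with `J = {i}`: `volume P = volume R`, `P = {x | Φ x ∈ cyl V ∅ ∧ x j < 1/2 ∧ ∀ k, k ≠ i → k ≠ j → 0 < x k}`. SI for `P` and `j`: for `0 < s < 1/2` the set `{x | 0 ≤ x j ∧ x j < 1 ∧ update x j s ∈ P}` contains the set in SLD up to the null set where some `x k = 0` (`Φ (update x j s)` is `s` at `j`, `x i` at `i`, `x k + s` at the others). -/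
def S_RV : Prop := ∀ (N : ℕ) (V : Finset (Fin N → ℕ)) (L : Set (Fin N → ℝ)) (ω : ℝ), Cut V L ω →
  ∀ (i j : Fin N), j ≠ i →
    ∫⁻ s in Ioo (0 : ℝ) (1 / 2), ∫⁻ x in cyl V {j}, ENNReal.ofReal ((max 0 (1 - s * sl L ω i j x)) ^ (N - 1)) ≤
      volume {x | x ∈ cyl V ∅ ∧ x j < 1 / 2 ∧ ∀ k, k ≠ i → k ≠ j → x j < x k}

/-- `κ(σ) = N ∫_0^{1/2} (1 - s σ)_+^(N-1) ds`. -/
noncomputable def kp (N : ℕ) (σ : ℝ) : ℝ := N * ∫ s in (0 : ℝ)..(1 / 2), (max 0 (1 - s * σ)) ^ (N - 1)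

/-- RW. The volume of `R_ij`, linear form. USES: MF, DM, FX, RV.
PROOF. Exchange the integrals in RV (Tonelli): for each `x` the integral over `s` is `kp N (σ x) / N ≥ (α - β σ(x)) / N`. `∫_{cyl V {j}} σ ≤ ω W V {j} + ∑_{k ≠ i,j} W V {j,k} / (N-1)` by FX. -/
def S_RW : Prop := ∀ (N : ℕ) (V : Finset (Fin N → ℕ)) (L : Set (Fin N → ℝ)) (ω α β : ℝ), Cut V L ω → 0 ≤ β →
  (∀ σ, 0 ≤ σ → α - β * σ ≤ kp N σ) → ∀ (i j : Fin N), j ≠ i →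
    ((α - β * ω) * W V {j} - β / ((N : ℝ) - 1) * ∑ k ∈ (Finset.univ.erase i).erase j, W V {j, k}) / N ≤
      (volume {x | x ∈ cyl V ∅ ∧ x j < 1 / 2 ∧ ∀ k, k ≠ i → k ≠ j → x j < x k}).toReal

/-- SE4. USES: MF, RW. PROOF. As Helper15/KN/SE.lean. -/
def S_SE4 : Prop := ∀ (N : ℕ) (V : Finset (Fin N → ℕ)) (L : Set (Fin N → ℝ)) (ω α β : ℝ), Cut V L ω → 0 ≤ β →
  (∀ σ, 0 ≤ σ → α - β * σ ≤ kp N σ) → ∀ i : Fin N,
  (volume {x : Fin N → ℝ | 0 ≤ x ∧ x ∉ newton V ∧ ∀ j, j ≠ i → 1 / 2 ≤ x j}).toReal ≤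
    W V ∅ - ∑ j ∈ Finset.univ.erase i, ((α - β * ω) * W V {j} -
      β / ((N : ℝ) - 1) * ∑ k ∈ (Finset.univ.erase i).erase j, W V {j, k}) / N

/-- SU4. Summation. PROOF. `∑_i ∑_{j ≠ i} W V {j} = (N-1) X V 1`; every ordered pair `(j, k)`, `j ≠ k`, occurs for `N - 2` values of `i`, and `∑_{j ≠ k} W V {j,k} = 2 X V 2`. -/
def S_SU4 : Prop := ∀ (N : ℕ) (V : Finset (Fin N → ℕ)) (a b : ℝ),
  ∑ i : Fin N, ∑ j ∈ Finset.univ.erase i, (a * W V {j} - b * ∑ k ∈ (Finset.univ.erase i).erase j, W V {j, k}) =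
    a * ((N : ℝ) - 1) * X V 1 - b * (2 * ((N : ℝ) - 2)) * X V 2

/-- TB4. PROOF. As Helper8/KN/TB.lean: `⟨w, y⟩ = (⟨w, x⟩ - t ∑_{k ∉ J} w_k)/(1 - η t)`. -/
def S_TB4 : Prop := ∀ (N : ℕ) (V : Finset (Fin N → ℕ)) (L : Set (Fin N → ℝ)) (ω : ℝ), Cut V L ω →
  ∀ (J : Finset (Fin N)) (η : ℝ) (x : Fin N → ℝ) (t : ℝ), (∀ w ∈ L, ∑ k ∈ Jᶜ, w k ≤ η) → x ∈ newton V → 0 ≤ t →
    t * η < 1 → (∀ k ∈ J, x k = 0) → (∀ k, k ∉ J → t ≤ x k) →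
    (fun k => if k ∈ J then (0 : ℝ) else (x k - t) / (1 - η * t)) ∈ newton V

/-- SHS4. USES: MF, SI, SC, TB4, SH. PROOF. Copy of Helper19/KN/SHS.lean with `η` instead of `θ`. -/
def S_SHS4 : Prop := ∀ (N : ℕ) (V : Finset (Fin N → ℕ)) (L : Set (Fin N → ℝ)) (ω : ℝ), Cut V L ω →
  ∀ (J : Finset (Fin N)) (η : ℝ) (j : Fin N), 0 < η → (∀ w ∈ L, ∑ k ∈ Jᶜ, w k ≤ η) → j ∉ J →
    W V (insert j J) ≤ η * ((N : ℝ) - J.card) *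
      (volume {x | x ∈ cyl V J ∧ ∀ k, k ∉ J → k ≠ j → x j < x k}).toReal

/-- XX4. USES: MF, SHS4. PROOF. Copies of Helper67/KN/CC2.lean and Helper59/KN/XX2.lean. -/
def S_XX4 : Prop := ∀ (N : ℕ) (V : Finset (Fin N → ℕ)) (L : Set (Fin N → ℝ)) (ω η : ℝ), Cut V L ω → 0 < η → ∀ k : ℕ,
  k < N → (∀ w ∈ L, ∀ J : Finset (Fin N), J.card = k → ∑ j ∈ Jᶜ, w j ≤ η) →
  ((k : ℝ) + 1) * T V (k + 1) ≤ η * T V k

/-- CLO. From any `L` to a compact one.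
PROOF. The closure of `L`: `⟨w, x⟩ ≥ 1` and the bounds are closed conditions on `w`; bounded, so compact; not empty, as otherwise `0 ∈ newton V` and then `0 ∈ V` (`0` is `≥` a convex combination of vectors of natural numbers). The sums over `Jᶜ` are closed conditions as well. -/
def S_CLO : Prop := ∀ (N : ℕ) (V : Finset (Fin N → ℕ)) (L : Set (Fin N → ℝ)) (ω : ℝ), Convenient V →
  (0 : Fin N → ℕ) ∉ V → 0 < ω → (∀ w ∈ L, ∀ j, 0 ≤ w j ∧ w j ≤ ω) → newton V = {x | 0 ≤ x ∧ ∀ w ∈ L, 1 ≤ dt w x} →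
  Cut V (closure L) ω ∧ ∀ (J : Finset (Fin N)) (η : ℝ), (∀ w ∈ L, ∑ j ∈ J, w j ≤ η) → ∀ w ∈ closure L, ∑ j ∈ J, w j ≤ η

/-- KP. PROOF. For `0 < σ ≤ 2` the integrand is `(1 - s σ)^(N-1)`; for `σ > 2` the integral over `[0, 1/σ]` is `1/(N σ)`; for `σ = 0` it is `1/2`. -/
def S_KP : Prop := ∀ (N : ℕ), 2 ≤ N → kp N 0 = N / 2 ∧ (∀ σ : ℝ, 0 < σ → σ ≤ 2 → kp N σ = (1 - (1 - σ / 2) ^ N) / σ) ∧
  ∀ σ : ℝ, 2 ≤ σ → kp N σ = 1 / σ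

/-- The numerical condition: `ω` weight bound, `η` bound of the sums of `N - 2` weights. -/
def Num (N : ℕ) (ω η : ℝ) : Prop := ∃ α β : ℝ, 0 ≤ β ∧ (∀ σ, 0 ≤ σ → α - β * σ ≤ kp N σ) ∧
  2 * β * ((N : ℝ) - 2) / N ≤ 1 - η / 3 ∧ 1 < ((N : ℝ) - 1) / N * (α - β * ω)

/-- NU3. USES: KP. PROOF. `N = 4`, `β = 11/15`, `α = 1.66`: `κ(σ) + β σ ≥ 1.66` (polynomial of degree 3 on `[0,2]`, minimum `1.6692` near `.93`; `1/σ + β σ ≥ 2 √β` beyond), `(3/4)(1.66 - .2934) = 1.0249`. -/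
def S_NU3 : Prop := Num 4 (2 / 5) (4 / 5)

/-- NU4. USES: KP. PROOF. `N = 5`, `β = 5/9`, `α = 1.486`: minimum of `κ + β σ` is `1.4874` near `1.31`; `(4/5)(1.486 - .1852) = 1.0406`. -/
def S_NU4 : Prop := Num 5 (1 / 3) 1

/-- NU5. USES: KP. PROOF. `N = 6`, `η = 16/15`, `β = 29/60`, `α = 1.389`: minimum `1.3900` near `1.43`; `(5/6)(1.389 - .1289) = 1.0501`. -/
def S_NU5 : Prop := Num 6 (4 / 15) (16 / 15)

/-- NU6. USES: KP. PROOF. `n = N - 1 ≥ 6`, `ω = 4/(3n)`, `η = 4(n-1)/(3n)`. `κ ≥ a/σ` for `σ ≥ 7/10`, `a = .95 ≤ 1 - (13/20)^7`, and `κ ≥ κ(7/10) ≥ a/(7/10) = 1.357` for `σ ≤ 7/10` (`κ` decreases: `(1 - (1-σ/2)^N)/σ = (1/2) ∑_{l<N} (1-σ/2)^l`). With `σ₀ = 37 n/(20 n + 28)`: `a/σ ≥ 2a/σ₀ - (a/σ₀²) σ`: `β = a/σ₀²`, `α = 2a/σ₀ ≤ 1.267`, so `α - β σ ≤ κ` everywhere.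
Needed: `2 β (n-1)/(n+1) ≤ 1 - η/3 = (5n+4)/(9n)`, that is `β ≤ (n+1)(5n+4)/(18n(n-1))` (`n = 6`: `.4222 ≤ .4407`, `n = 7`: `.3997 ≤ .4127`, `n = ∞`: `.27757 ≤ .27778`) and `(n/(n+1)) (α - β ω) > 1` (`n = 6`: `1.0053`, `7`: `1.0117`, `8`: `1.0159`, `10`: `1.0206`, `∞`: `1.027`): rational inequalities in `n ≥ 6` (put `n = m + 6`). -/
def S_NU6 : Prop := ∀ N : ℕ, 7 ≤ N → Num N (4 / (3 * ((N : ℝ) - 1))) (4 * ((N : ℝ) - 2) / (3 * ((N : ℝ) - 1)))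

/-- NU1. USES: KP. PROOF. `β` with `2 β (N-2)/N ≤ 2/3`. `N = 5`: `β = 5/9`, `α = 1.487` (min of `κ + β σ` is `1.4874` near `1.31`), `(4/5)(α - .4 β) = 1.0118`. `N = 6`: `β = 1/2`, `α = 1.4135` (min `1.4137` near `1.41`): `1.0112`. `N ≥ 7`: `a = .998 ≤ 1 - (2/5)^7`, `κ(σ) ≥ a/σ` for `σ ≥ 6/5`, and for `σ ≤ 6/5` use the line tangent bound as well (`κ ≥ κ_7`,
`κ_7(σ) = (1/2) ∑_{l<7} (1-σ/2)^l`; e.g. `κ_7(σ) ≥ a'/σ` with `a' = 1 - (13/20)^7 = .951` for `.7 ≤ σ ≤ 1.2` and there `a'/σ + β σ ≥ 1.36` is to be checked, `β ≥ 1/3`, or decreasing of `κ`), `σ₀ = 1.731 (1 - 1/N - 1/(2N²))`, `α = 2a/σ₀`, `β = a/σ₀²` (`≤ N/(3(N-2))` as `1.731² ≥ 3a` and `(1 - 1/N - 1/(2N²))² ≥ 1 - 2/N`), `((N-1)/N)(α - .4 β) > 1`: `N = 7`: `1.008`, `8`: `1.0088`, `∞`: `1.020`. (Tight: 1 percent.) -/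
def S_NU1 : Prop := ∀ N : ℕ, 5 ≤ N → Num N (2 / 5) 1

/-- FI4 (helper70). -/
def S_FI4 : Prop := ∀ (N : ℕ) (V : Finset (Fin N → ℕ)) (L : Set (Fin N → ℝ)) (ω η : ℝ), 4 ≤ N → Cut V L ω →
  0 < η → η ≤ 3 → (∀ w ∈ L, ∀ i, ∑ j ∈ Finset.univ.erase i, w j ≤ 2) →
  (∀ w ∈ L, ∀ J : Finset (Fin N), J.card = 2 → ∑ j ∈ Jᶜ, w j ≤ η) → Num N ω η →
  (N.factorial : ℝ) * genus V < newtonNumber V

end Pool.Agent.Helper70.KN
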